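import Pool.Agent.NUQD.Two

/-!
# The determinant formula at loop weight zero in real variables
-/

set_option autoImplicit false

open Matrix Finset

namespace NUGas.QD

variable {η : ℂ}

theorem dt_ofFn {R : Type*} [CommRing R] {α : Type*} (K : α → α → R) {n : ℕ} (x : Fin n → α) :
    dt K (List.ofFn x) = (Matrix.of fun i j => K (x i) (x j)).det := by
  have hl : (List.ofFn x).length = n := List.length_ofFn
  unfold dt
  rw [← Matrix.det_submatrix_equiv_self (finCongr hl.symm) (mt K (List.ofFn x))]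
  congr 1
  ext i j
  simp [mt]

theorem Pr_ofFn {n : ℕ} (x : Fin n → ℂ) :
    Pr η (List.ofFn x) = ∏ i : Fin n, ∏ j ∈ Ioi i, h η (x i) (x j) / (x i - x j) := by
  induction n with
  | zero => simp [Pr]
  | succ n ih =>
    rw [List.ofFn_succ, Pr, ih, Fin.prod_univ_succ]
    congr 1
    · rw [Fin.prod_Ioi_zero, List.map_ofFn, List.prod_ofFn]
      rfl
    · refine Finset.prod_congr rfl fun i _ => ?_
      rw [Fin.prod_Ioi_succ]

theorem DD_ofFn {n : ℕ} (hn : Even n) (x : Fin n → ℂ) :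
    DD η (List.ofFn x) = (∏ i : Fin n, ∏ j ∈ Ioi i, h η (x i) (x j) / (x i - x j)) ^ 2 *
      (Matrix.of fun i j : Fin n => (x i ^ 2 - x j ^ 2) / h η (x i) (x j)).det := by
  have e : pts (List.ofFn x) (EL (List.ofFn x)) = List.ofFn (fun i => some (x i)) := by
    unfold EL pts
    rw [List.length_ofFn, if_pos hn, List.append_nil, List.map_ofFn]
    rfl
  rw [DD, Pr_ofFn, e, dt_ofFn]
  rfl

/-- the prefactor of a pair -/
noncomputable def pf (s t : ℝ) : ℝ :=
  Real.exp (s + t) * (Real.cosh (2 * (s - t)) + √2 / 2) / Real.sinh (s - t)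

/-- the kernel -/
noncomputable def Ak (t : ℝ) : ℝ := Real.sinh (2 * t) / (Real.cosh (2 * t) + √2 / 2)

theorem h_exp (hη : η - η ^ 3 = ((√2 : ℝ) : ℂ)) (s t : ℝ) :
    h η (Real.exp (2 * s) : ℝ) (Real.exp (2 * t) : ℝ) =
      ((2 * Real.exp (2 * (s + t)) * (Real.cosh (2 * (s - t)) + √2 / 2) : ℝ) : ℂ) := by
  unfold h
  rw [hη]
  have : (Real.exp (2 * s)) ^ 2 + √2 * Real.exp (2 * s) * Real.exp (2 * t) + (Real.exp (2 * t)) ^ 2 =
      2 * Real.exp (2 * (s + t)) * (Real.cosh (2 * (s - t)) + √2 / 2) := by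
    have e1 : Real.exp (2 * (s + t)) = Real.exp (2 * s) * Real.exp (2 * t) := by
      rw [← Real.exp_add]; congr 1; ring
    have e2 : Real.cosh (2 * (s - t)) = (Real.exp (2 * s) / Real.exp (2 * t) +
        Real.exp (2 * t) / Real.exp (2 * s)) / 2 := by
      rw [Real.cosh_eq, ← Real.exp_sub, ← Real.exp_sub]
      congr 3 <;> ring
    rw [e1, e2]
    have p1 := (Real.exp_pos (2 * s)).ne'
    have p2 := (Real.exp_pos (2 * t)).ne'
    field_simp
    ring
  exact_mod_cast this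

theorem cosh_pos' (t : ℝ) : 0 < Real.cosh t + √2 / 2 := by
  have := Real.cosh_pos t
  positivity

theorem pf_eq (hη : η - η ^ 3 = ((√2 : ℝ) : ℂ)) {s t : ℝ} (hst : s ≠ t) :
    h η (Real.exp (2 * s) : ℝ) (Real.exp (2 * t) : ℝ) /
      (((Real.exp (2 * s) : ℝ) : ℂ) - ((Real.exp (2 * t) : ℝ) : ℂ)) = ((pf s t : ℝ) : ℂ) := by
  rw [h_exp hη]
  have hs : Real.sinh (s - t) ≠ 0 := by
    rw [Ne, Real.sinh_eq_zero]
    exact sub_ne_zero.2 hst
  have e1 : Real.exp (2 * s) - Real.exp (2 * t) = Real.exp (s + t) * (2 * Real.sinh (s - t)) := by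
    rw [Real.sinh_eq]
    have : Real.exp (s + t) * (2 * ((Real.exp (s - t) - Real.exp (-(s - t))) / 2)) =
        Real.exp (s + t) * Real.exp (s - t) - Real.exp (s + t) * Real.exp (-(s - t)) := by ring
    rw [this, ← Real.exp_add, ← Real.exp_add]
    congr 2 <;> ring
  have e2 : Real.exp (2 * (s + t)) = Real.exp (s + t) * Real.exp (s + t) := by
    rw [← Real.exp_add]; congr 1; ring
  have h3 := (Real.exp_pos (s + t)).ne'
  have : 2 * Real.exp (2 * (s + t)) * (Real.cosh (2 * (s - t)) + √2 / 2) /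
      (Real.exp (2 * s) - Real.exp (2 * t)) = pf s t := by
    rw [e1, e2, pf]
    field_simp
  exact_mod_cast this

theorem Ak_eq (hη : η - η ^ 3 = ((√2 : ℝ) : ℂ)) (s t : ℝ) :
    ((((Real.exp (2 * s) : ℝ) : ℂ)) ^ 2 - ((Real.exp (2 * t) : ℝ) : ℂ) ^ 2) /
      h η (Real.exp (2 * s) : ℝ) (Real.exp (2 * t) : ℝ) = ((Ak (s - t) : ℝ) : ℂ) := by
  rw [h_exp hη]
  have e1 : Real.exp (2 * s) ^ 2 - Real.exp (2 * t) ^ 2 =
      Real.exp (2 * (s + t)) * (2 * Real.sinh (2 * (s - t))) := by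
    rw [Real.sinh_eq, ← Real.exp_nat_mul, ← Real.exp_nat_mul]
    have : Real.exp (2 * (s + t)) * (2 * ((Real.exp (2 * (s - t)) - Real.exp (-(2 * (s - t)))) / 2)) =
        Real.exp (2 * (s + t)) * Real.exp (2 * (s - t)) -
          Real.exp (2 * (s + t)) * Real.exp (-(2 * (s - t))) := by ring
    rw [this, ← Real.exp_add, ← Real.exp_add]
    push_cast
    congr 2 <;> ring
  have h2 := cosh_pos' (2 * (s - t))
  have h3 := (Real.exp_pos (2 * (s + t))).ne'
  have : (Real.exp (2 * s) ^ 2 - Real.exp (2 * t) ^ 2) /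
      (2 * Real.exp (2 * (s + t)) * (Real.cosh (2 * (s - t)) + √2 / 2)) = Ak (s - t) := by
    rw [e1, Ak]
    field_simp
  exact_mod_cast this

/-- the real expression -/
noncomputable def RD {n : ℕ} (t : Fin n → ℝ) : ℝ :=
  (∏ i : Fin n, ∏ j ∈ Ioi i, pf (t i) (t j)) ^ 2 *
    (Matrix.of fun i j : Fin n => Ak (t i - t j)).det

theorem DD_real (hη : η - η ^ 3 = ((√2 : ℝ) : ℂ)) {n : ℕ} (hn : Even n) (t : Fin n → ℝ)
    (ht : Function.Injective t) :
    DD η (List.ofFn fun i => ((Real.exp (2 * t i) : ℝ) : ℂ)) = ((RD t : ℝ) : ℂ) := by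
  rw [DD_ofFn hn, RD]
  push_cast
  congr 1
  · congr 1
    refine Finset.prod_congr rfl fun i _ => Finset.prod_congr rfl fun j hj => ?_
    have hne : t i ≠ t j := fun hh => (Finset.mem_Ioi.1 hj).ne (ht hh)
    have := pf_eq hη hne
    push_cast at this ⊢
    exact this
  · have e : (Complex.ofRealHom.mapMatrix (Matrix.of fun i j : Fin n => Ak (t i - t j))) =
        (Matrix.of fun i j : Fin n => ((((Real.exp (2 * t i) : ℝ) : ℂ)) ^ 2 -
          ((Real.exp (2 * t j) : ℝ) : ℂ) ^ 2) /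
          h η (Real.exp (2 * t i) : ℝ) (Real.exp (2 * t j) : ℝ)) := by
      ext i j
      rw [Matrix.of_apply, Ak_eq hη]
      rfl
    have e2 := Complex.ofRealHom.map_det (Matrix.of fun i j : Fin n => Ak (t i - t j))
    rw [e] at e2
    have e3 : Complex.ofRealHom (Matrix.of fun i j : Fin n => Ak (t i - t j)).det =
        (((Matrix.of fun i j : Fin n => Ak (t i - t j)).det : ℝ) : ℂ) := rfl
    rw [← e3, e2]
    push_cast
    rfl

end NUGas.QD
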