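import Pool.Agent.NUF.FNz
import Pool.Agent.NUQD.DetFin

/-!
# The disc function at loop weight zero: determinant, equal lines
-/

set_option autoImplicit false

open Matrix Finset Filter Topology

namespace Pool.Agent.NUF

theorem Wd0_det {X Y : List ℂ} (hg : NUGas.Gen NUMv.eta (X ++ Y)) :
    (near_WW 0).Wd X Y = NUGas.QD.DD NUMv.eta (X ++ Y) :=
  NUGas.QD.data_det NUMv.eta4 ((near_WW 0).data (joint_WW 0)) hg

theorem eta_rt : NUMv.eta - NUMv.eta ^ 3 = ((√2 : ℝ) : ℂ) := by
  rw [← NUMv.rt_eta]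
  rfl

theorem Wd0_real {n : ℕ} (hn : Even n) (t : Fin n → ℝ) (ht : Function.Injective t) {X Y : List ℂ}
    (hXY : X ++ Y = List.ofFn fun i => ((Real.exp (2 * t i) : ℝ) : ℂ)) :
    (near_WW 0).Wd X Y = ((NUGas.QD.RD t : ℝ) : ℂ) := by
  rw [Wd0_det, hXY]
  · exact NUGas.QD.DD_real eta_rt hn t ht
  · rw [hXY]
    apply NUMv.gen_pos
    · intro c hc
      obtain ⟨i, rfl⟩ := (List.mem_ofFn' _ _).1 hc
      exact ⟨Real.exp (2 * t i), Real.exp_pos _, rfl⟩
    · rw [List.nodup_ofFn]
      intro i j hij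
      apply ht
      have h1 : Real.exp (2 * t i) = Real.exp (2 * t j) := Complex.ofReal_injective hij
      have := Real.exp_injective h1
      linarith

/-- **equal lines** -/
theorem Wd0_lim (m : ℕ) :
    Tendsto (fun ε : ℝ => ((NUGas.QD.RD (fun i : Fin (2 * m) => ε * (i : ℝ)) : ℝ) : ℂ)) (𝓝[>] 0)
      (𝓝 ((near_WW 0).Wd (List.replicate m 1) (List.replicate m 1))) := by
  set e : ℝ → List ℂ := fun ε => List.ofFn fun i : Fin (2 * m) =>
    ((Real.exp (2 * (ε * (i : ℝ))) : ℝ) : ℂ) with he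
  have hlen : ∀ ε, (e ε).length = 2 * m := fun ε => by rw [he]; exact List.length_ofFn
  have h0 : Tendsto (fun ε : ℝ => NUMv.pt (e ε)) (𝓝 0) (𝓝 (NUMv.pt (e 0))) := by
    rw [tendsto_pi_nhds]
    intro k
    by_cases hk : k < 2 * m
    · have e1 : ∀ ε, NUMv.pt (e ε) k = ((Real.exp (2 * (ε * (k : ℝ))) : ℝ) : ℂ) := fun ε => by
        simp only [he, NUMv.pt]
        rw [List.getD_eq_getElem _ _ (by rw [List.length_ofFn]; exact hk), List.getElem_ofFn]
      simp only [e1]
      have hc : Continuous fun ε : ℝ => ((Real.exp (2 * (ε * (k : ℝ))) : ℝ) : ℂ) := by fun_prop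
      exact hc.tendsto 0
    · have e1 : ∀ ε, NUMv.pt (e ε) k = 0 := fun ε => by
        simp only [he, NUMv.pt]
        exact List.getD_eq_default _ _ (by rw [List.length_ofFn]; omega)
      simp only [e1]
      exact tendsto_const_nhds
  have e0 : e 0 = List.replicate m 1 ++ List.replicate m 1 := by
    rw [List.replicate_append_replicate, ← two_mul, List.eq_replicate_iff]
    refine ⟨hlen 0, fun b hb => ?_⟩
    obtain ⟨i, rfl⟩ := (List.mem_ofFn' _ _).1 hb
    simp
  have h2 := (near_WW 0).Wd_tendsto (x := fun ε : ℝ => (e ε).take m) (y := fun ε : ℝ => (e ε).drop m)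
    (x₀ := List.replicate m 1) (y₀ := List.replicate m 1) (l := 𝓝[>] 0)
    (fun ε => by rw [List.length_take, hlen, List.length_replicate]; omega)
    (fun ε => by rw [List.length_drop, hlen, List.length_replicate]; omega) (by
      simp only [List.take_append_drop]
      rw [← e0]
      exact h0.mono_left nhdsWithin_le_nhds)
  refine h2.congr' ?_
  filter_upwards [self_mem_nhdsWithin] with ε hε
  have hε' : (0 : ℝ) < ε := hε
  refine Wd0_real (even_two_mul m) (fun i : Fin (2 * m) => ε * (i : ℝ)) ?_ (List.take_append_drop _ _)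
  intro i j hij
  have h3 : ε * (i : ℝ) = ε * (j : ℝ) := hij
  have h4 := mul_left_cancel₀ hε'.ne' h3
  exact Fin.ext (by exact_mod_cast h4)

end Pool.Agent.NUF
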