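import Pool.Agent.NUQD.PolA

/-!
# The disc function at loop weight zero is a determinant (one group)
-/

set_option autoImplicit false

open Polynomial Matrix

namespace NUGas.QD

variable {η : ℂ}

theorem h_factor (hη : η ^ 4 = -1) (a b : ℂ) : h η a b = (a - η ^ 3 * b) * (a - η ^ 5 * b) := by
  unfold h
  linear_combination (a * b * η + b ^ 2 * (1 - η ^ 4)) * hη

theorem h_ne (hη : η ^ 4 = -1) {a b : ℂ} (hs : Sep η b a) : h η a b ≠ 0 := by
  rw [h_factor hη]
  exact mul_ne_zero (sub_ne_zero.2 fun e => hs 3 e.symm) (sub_ne_zero.2 fun e => hs 5 e.symm)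

theorem h_self_ne (hη : η ^ 4 = -1) {a : ℂ} (ha : a ≠ 0) : h η a a ≠ 0 := by
  rw [h_factor hη]
  have h3 : η ^ 3 ≠ 1 := eta_pow_ne_one hη (by norm_num)
  have h5 : η ^ 5 ≠ 1 := eta_pow_ne_one hη (by norm_num)
  refine mul_ne_zero (sub_ne_zero.2 fun e => h3 ?_) (sub_ne_zero.2 fun e => h5 ?_)
  · exact mul_right_cancel₀ ha (by rw [one_mul]; exact e.symm)
  · exact mul_right_cancel₀ ha (by rw [one_mul]; exact e.symm)

theorem cross_id (hη : η ^ 4 = -1) (q y : ℂ) :
    h η q y * h η (η ^ 3 * q) y =
      (y + η * q) * (y + η ^ 2 * q) * ((q - y) * (η ^ 3 * q - y)) := by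
  unfold h
  have e6 : η ^ 6 = - η ^ 2 := by
    rw [show (6 : ℕ) = 4 + 2 from rfl, pow_add, hη]; ring
  have e5 : η ^ 5 = - η := by
    rw [show (5 : ℕ) = 4 + 1 from rfl, pow_add, hη]; ring
  have e7 : η ^ 7 = - η ^ 3 := by
    rw [show (7 : ℕ) = 4 + 3 from rfl, pow_add, hη]; ring
  have e9 : η ^ 9 = η := by
    rw [show (9 : ℕ) = 4 + (4 + 1) from rfl, pow_add, pow_add, hη]; ring
  ring_nf
  simp only [hη, e5, e6, e7, e9]
  ring

/-- the pair product -/
noncomputable def Pr (η : ℂ) : List ℂ → ℂ
  | [] => 1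
  | x :: L => (L.map (fun y => h η x y / (x - y))).prod * Pr η L

theorem Pr_sq_perm {L L' : List ℂ} (hp : L.Perm L') : Pr η L ^ 2 = Pr η L' ^ 2 := by
  induction hp with
  | nil => rfl
  | @cons a L L' hp ih =>
    simp only [Pr]
    rw [mul_pow, mul_pow, ih, (hp.map _).prod_eq]
  | swap a b L =>
    simp only [Pr, List.map_cons, List.prod_cons]
    have e : h η b a / (b - a) = - (h η a b / (a - b)) := by
      rw [h_symm b a, ← div_neg, neg_sub]
    rw [e]
    ring
  | trans _ _ ih1 ih2 => rw [ih1, ih2]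

/-- the point at infinity, for an odd number of lines -/
def EL (L : List ℂ) : List (Option ℂ) := if Even L.length then [] else [none]

theorem EL_none (L : List ℂ) : ∀ e ∈ EL L, e = none := by
  intro e he
  unfold EL at he
  split_ifs at he <;> simp_all

theorem EL_two (a b : ℂ) (L : List ℂ) : EL (a :: b :: L) = EL L := by
  unfold EL
  congr 1
  simp only [List.length_cons]
  rw [eq_iff_iff, add_assoc, Nat.even_add]
  simp

theorem EL_len {L L' : List ℂ} (hl : L.length = L'.length) : EL L = EL L' := by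
  unfold EL; rw [hl]

/-- the determinant -/
noncomputable def DD (η : ℂ) (L : List ℂ) : ℂ := Pr η L ^ 2 * dt (AA η) (pts L (EL L))

theorem pts_perm {L L' : List ℂ} (hp : L.Perm L') (E : List (Option ℂ)) :
    (pts L E).Perm (pts L' E) := (hp.map some).append_right E

theorem DD_perm {L L' : List ℂ} (hp : L.Perm L') : DD η L = DD η L' := by
  unfold DD
  rw [Pr_sq_perm hp, EL_len hp.length_eq, dt_perm _ (pts_perm hp _)]

theorem lead_eq (t : ℂ) (L : List ℂ) :
    bd (fun s => if s = none then -1 else 1) (AA η) (pts L (EL (t :: L))) =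
      dt (AA η) (pts L (EL L)) := by
  unfold EL
  by_cases hn : Even L.length
  · have hn' : ¬ Even (t :: L).length := by
      rw [List.length_cons, Nat.even_add_one]
      exact fun h => h hn
    rw [if_pos hn, if_neg hn']
    have hp : (pts L [none]).Perm (none :: L.map some) := by
      unfold pts
      exact List.perm_append_comm
    rw [bd_perm _ _ hp]
    have hl : 0 < (none :: L.map some : List (Option ℂ)).length := by simp
    rw [bd_add (fun s => if s = none then -1 else 1) (fun s : Option ℂ => if s = none then -1 else 0)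
      (AA η) (S := none :: L.map some) 1 1 ⟨0, hl⟩ (fun s _ t _ => AA_anti s t) (AA_self _) ?_]
    · rw [bd_single]
      · simp [pts]
      · intro s hs
        obtain ⟨a, _, rfl⟩ := List.mem_map.1 hs
        simp
    · intro s _
      rcases s with _ | s
      · simp [AA]
      · simp [AA]
  · have hn' : Even (t :: L).length := by
      rw [List.length_cons, Nat.even_add_one]
      exact hn
    rw [if_neg hn, if_pos hn']
    have hp : (pts L [none]).Perm (none :: L.map some) := by
      unfold pts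
      exact List.perm_append_comm
    rw [dt_perm _ hp, dt_cons _ _ _ (AA_self _) (fun s _ => AA_anti _ _)]
    have e : pts L [] = L.map some := by simp [pts]
    rw [e]
    refine bd_congr' _ _ _ fun s hs => ?_
    obtain ⟨a, _, rfl⟩ := List.mem_map.1 hs
    simp [AA]

theorem prod_dvd {f : ℂ → ℂ[X]} {D : ℂ[X]} : ∀ {L : List ℂ},
    L.Pairwise (fun x y => IsCoprime (f x) (f y)) → (∀ x ∈ L, f x ∣ D) → (L.map f).prod ∣ D
  | [], _, _ => by simp
  | a :: L, h1, h2 => by
    rw [List.map_cons, List.prod_cons]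
    have h3 := (List.pairwise_cons.1 h1).1
    refine IsCoprime.mul_dvd ?_ (h2 a List.mem_cons_self)
      (prod_dvd (List.pairwise_cons.1 h1).2 fun x hx => h2 x (List.mem_cons_of_mem _ hx))
    clear h1 h2
    induction L with
    | nil => simpa using isCoprime_one_right
    | cons b L ih =>
      rw [List.map_cons, List.prod_cons]
      exact (h3 b List.mem_cons_self).mul_right (ih fun x hx => h3 x (List.mem_cons_of_mem _ hx))

/-- the factor of the special points of a line -/
noncomputable def ff (η x : ℂ) : ℂ[X] :=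
  (X - C x) ^ 2 * ((X - C (η ^ 3 * x)) * (X - C (η ^ 5 * x)))

theorem cop {a b : ℂ} (hab : a ≠ b) : IsCoprime (X - C a : ℂ[X]) (X - C b) :=
  isCoprime_X_sub_C_of_isUnit_sub (sub_ne_zero.2 hab).isUnit

theorem ff_cop (hη : η ^ 4 = -1) {x y : ℂ} (hs : Sep η x y) : IsCoprime (ff η x) (ff η y) := by
  have g : ∀ j k : ℕ, η ^ j * x ≠ η ^ k * y := fun j k => hs.mul_right hη k j
  have c00 := cop (g 0 0)
  have c03 := cop (g 0 3)
  have c05 := cop (g 0 5)
  have c30 := cop (g 3 0)
  have c33 := cop (g 3 3)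
  have c35 := cop (g 3 5)
  have c50 := cop (g 5 0)
  have c53 := cop (g 5 3)
  have c55 := cop (g 5 5)
  simp only [pow_zero, one_mul] at c00 c03 c05 c30 c50
  unfold ff
  refine IsCoprime.mul_left (IsCoprime.pow_left ?_) (IsCoprime.mul_left ?_ ?_)
  · exact IsCoprime.mul_right (IsCoprime.pow_right c00) (IsCoprime.mul_right c03 c05)
  · exact IsCoprime.mul_right (IsCoprime.pow_right c30) (IsCoprime.mul_right c33 c35)
  · exact IsCoprime.mul_right (IsCoprime.pow_right c50) (IsCoprime.mul_right c53 c55)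

theorem ff_monic (x : ℂ) : (ff η x).Monic := by
  unfold ff
  exact ((monic_X_sub_C x).pow 2).mul ((monic_X_sub_C _).mul (monic_X_sub_C _))

theorem ff_natDegree (x : ℂ) : (ff η x).natDegree = 4 := by
  unfold ff
  rw [((monic_X_sub_C x).pow 2).natDegree_mul ((monic_X_sub_C _).mul (monic_X_sub_C _)),
    (monic_X_sub_C _).natDegree_mul (monic_X_sub_C _), (monic_X_sub_C x).natDegree_pow,
    natDegree_X_sub_C, natDegree_X_sub_C, natDegree_X_sub_C]

theorem prodff (L : List ℂ) : ((L.map (ff η)).prod).Monic ∧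
    ((L.map (ff η)).prod).natDegree = 4 * L.length := by
  have hm : ((L.map (ff η)).prod).Monic := monic_list_prod' _ fun p hp => by
    obtain ⟨a, _, rfl⟩ := List.mem_map.1 hp
    exact ff_monic a
  refine ⟨hm, ?_⟩
  induction L with
  | nil => simp
  | cons a L ih =>
    rw [List.map_cons, List.prod_cons, (ff_monic a).natDegree_mul (monic_list_prod' _ fun p hp => by
      obtain ⟨a, _, rfl⟩ := List.mem_map.1 hp
      exact ff_monic a), ih (monic_list_prod' _ fun p hp => by
      obtain ⟨a, _, rfl⟩ := List.mem_map.1 hp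
      exact ff_monic a), ff_natDegree, List.length_cons]
    ring

/-- the square factors -/
noncomputable def sqp (L : List ℂ) : ℂ[X] := (L.map (fun x => (X - C x) ^ 2)).prod

theorem sqp_monic (L : List ℂ) : (sqp L).Monic := monic_list_prod' _ fun p hp => by
  obtain ⟨a, _, rfl⟩ := List.mem_map.1 hp
  exact (monic_X_sub_C a).pow 2

theorem sqp_natDegree (L : List ℂ) : (sqp L).natDegree = 2 * L.length := by
  unfold sqp
  induction L with
  | nil => simp
  | cons a L ih =>
    have hm := sqp_monic L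
    unfold sqp at hm
    rw [List.map_cons, List.prod_cons, ((monic_X_sub_C a).pow 2).natDegree_mul hm, ih,
      (monic_X_sub_C a).natDegree_pow, List.length_cons, natDegree_X_sub_C]
    ring

theorem sqp_eval (L : List ℂ) (t : ℂ) : (sqp L).eval t = (L.map (fun x => (t - x))).prod ^ 2 := by
  unfold sqp
  induction L with
  | nil => simp
  | cons a L ih =>
    rw [List.map_cons, List.prod_cons, eval_mul, ih]
    simp
    ring

theorem list_prod_mul (L : List ℂ) (f g : ℂ → ℂ) :
    (L.map f).prod * (L.map g).prod = (L.map (fun y => f y * g y)).prod := by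
  induction L with
  | nil => simp
  | cons a L ih =>
    simp only [List.map_cons, List.prod_cons]
    rw [← ih]
    ring

/-- the value at a node, in terms of smaller ones -/
theorem node_val (hη : η ^ 4 = -1) {L : List ℂ} {q x z : ℂ} (hqx : (q = x ∧ z = η ^ 3 * q) ∨
    (q = z ∧ x = η ^ 3 * q)) (hxz : Gen η (x :: L)) :
    (2 - η + η ^ 3) * η ^ 3 * q ^ 2 * (L.map (fun y => ((y + η * q) * (y + η ^ 2 * q)) ^ 2)).prod *
      Pr η L ^ 2 * ((x :: L).map (fun y => z - y)).prod ^ 2 =
    Pr η (x :: L) ^ 2 * ((z ^ 2 - x ^ 2) * (L.map (fun y => h η z y)).prod) ^ 2 := by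
  have e1 : (z ^ 2 - x ^ 2) ^ 2 = (2 - η + η ^ 3) * η ^ 3 * q ^ 2 * (z - x) ^ 2 := by
    have : (z + x) ^ 2 = (2 - η + η ^ 3) * η ^ 3 * q ^ 2 := by
      rcases hqx with ⟨rfl, rfl⟩ | ⟨rfl, rfl⟩
      · linear_combination (q ^ 2) * hη
      · linear_combination (q ^ 2) * hη
    rw [← this]
    ring
  have e2 : ∀ y ∈ L, (h η x y / (x - y)) * h η z y = (y + η * q) * (y + η ^ 2 * q) * (z - y) := by
    intro y hy
    have hne : x - y ≠ 0 := by
      have := (hxz.good hη y hy).1
      exact sub_ne_zero.2 this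
    rw [div_mul_eq_mul_div, div_eq_iff hne]
    rcases hqx with ⟨rfl, rfl⟩ | ⟨rfl, rfl⟩
    · rw [cross_id hη]; ring
    · rw [mul_comm (h η _ y), cross_id hη]; ring
  have e3 : (L.map (fun y => h η x y / (x - y))).prod * (L.map (fun y => h η z y)).prod =
      (L.map (fun y => (y + η * q) * (y + η ^ 2 * q))).prod * (L.map (fun y => z - y)).prod := by
    rw [list_prod_mul, list_prod_mul]
    congr 1
    exact List.map_congr_left e2
  have e4 : (L.map (fun y => ((y + η * q) * (y + η ^ 2 * q)) ^ 2)).prod =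
      (L.map (fun y => (y + η * q) * (y + η ^ 2 * q))).prod ^ 2 := by
    rw [pow_two (L.map (fun y => (y + η * q) * (y + η ^ 2 * q))).prod, list_prod_mul]
    congr 1
    refine List.map_congr_left fun y _ => ?_
    ring
  simp only [Pr, List.map_cons, List.prod_cons]
  calc _ = ((2 - η + η ^ 3) * η ^ 3 * q ^ 2 * (z - x) ^ 2) * Pr η L ^ 2 *
        ((L.map (fun y => (y + η * q) * (y + η ^ 2 * q))).prod * (L.map (fun y => z - y)).prod) ^ 2 := by
        rw [e4]; ring
    _ = _ := by rw [← e3, ← e1]; ring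

/-- **one group** -/
theorem one_group (hη : η ^ 4 = -1) {W : List ℂ → List ℂ → ℂ} (hW : Data η 0 W) :
    ∀ (n : ℕ) (L : List ℂ), L.length = n → Gen η L → W L [] = DD η L := by
  intro n
  induction n using Nat.strong_induction_on with
  | _ n ih =>
  intro L hn hL
  have hnil : Gen η [] := ⟨by simp, List.Pairwise.nil⟩
  rcases L with _ | ⟨t, L⟩
  · rw [hW.nil]
    simp [DD, Pr, pts, EL, dt_nil]
  rw [List.length_cons] at hn
  obtain ⟨P, d, tp, _, v⟩ := hW.poly L [] hL.tail hnil
  simp only [List.length_nil, add_zero] at d tp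
  rw [ih L.length (by omega) L rfl hL.tail] at tp
  set E := EL (t :: L) with hE
  have hEn : ∀ e ∈ E, e = none := EL_none _
  set D : ℂ[X] := P * sqp L - C (Pr η L ^ 2) * St η L E with hD
  -- degree and top coefficient
  obtain ⟨sd, sc⟩ := St_natDegree_coeff (η := η) (L := L) hEn
  have hdeg : D.natDegree ≤ 4 * L.length := by
    refine (natDegree_sub_le _ _).trans (max_le ?_ ?_)
    · refine natDegree_mul_le.trans ?_
      rw [sqp_natDegree]
      omega
    · exact (natDegree_C_mul_le _ _).trans sd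
  have htop : D.coeff (4 * L.length) = 0 := by
    rw [hD, coeff_sub, coeff_C_mul, sc, hE, lead_eq]
    have : (P * sqp L).coeff (2 * L.length + 2 * L.length) =
        P.coeff (2 * L.length) * (sqp L).coeff (2 * L.length) :=
      coeff_mul_add_eq_of_natDegree_le d (sqp_natDegree L).le
    rw [show 4 * L.length = 2 * L.length + 2 * L.length by ring, this, tp]
    have h1 := (sqp_monic L).coeff_natDegree
    rw [sqp_natDegree] at h1
    rw [h1, DD]
    ring
  -- divisibility
  have hdvd : ∀ x ∈ L, ff η x ∣ D := by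
    intro x hx
    obtain ⟨L', hp⟩ : ∃ L', L.Perm (x :: L') := ⟨L.erase x, List.perm_cons_erase hx⟩
    have hg : Gen η (x :: L') := hL.tail.perm hη hp
    have hlen : L.length = L'.length + 1 := by rw [hp.length_eq]; rfl
    have hxL' : x ∉ L' := fun hh => (hg.sep hh) 0 (by simp)
    have hx0 := hg.head
    have hE' : E = EL L' := by
      rw [hE, ← EL_two t x L']
      exact EL_len (by simp [hlen])
    have hval : ∀ q z : ℂ, ((q = x ∧ z = η ^ 3 * q) ∨ (q = z ∧ x = η ^ 3 * q)) → Good η z L →
        h η z x = 0 → W (z :: L) [] = (2 - η + η ^ 3) * η ^ 3 * q ^ 2 *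
          (L'.map (fun y => ((y + η * q) * (y + η ^ 2 * q)) ^ 2)).prod * W L' [] → D.eval z = 0 := by
      intro q z hq hgood hz hWz
      rw [hD, eval_sub, eval_mul, eval_mul, eval_C, ← v z hgood, hWz, sqp_eval,
        ih L'.length (by omega) L' rfl hg.tail, St_perm E hp, St_node hEn hxL' hz, hE', DD,
        Pr_sq_perm hp, ((hp.map (fun y => z - y)).prod_eq)]
      have := node_val hη hq hg
      linear_combination (dt (AA η) (pts L' (EL L'))) * this
    have h8 := eta8 hη
    have hz3 : D.eval (η ^ 3 * x) = 0 := by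
      refine hval x (η ^ 3 * x) (Or.inl ⟨rfl, rfl⟩) ((good_scale hη hg (by norm_num) (by norm_num)
        (by norm_num)).perm hp.symm) (h_eta3 hη x) ?_
      rw [hW.perm [] (hp.cons _), hW.cross x L' [] hg hnil]
      simp
    have hz5 : D.eval (η ^ 5 * x) = 0 := by
      have hx3 : η ^ 3 * (η ^ 5 * x) = x := by
        rw [← mul_assoc, ← pow_add]; norm_num; rw [h8, one_mul]
      refine hval (η ^ 5 * x) (η ^ 5 * x) (Or.inr ⟨rfl, hx3.symm⟩) ((good_scale hη hg (by norm_num)
        (by norm_num) (by norm_num)).perm hp.symm) (h_eta5 hη x) ?_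
      have hg5 := hg.scale hη 5
      have c1 := hW.cross (η ^ 5 * x) L' [] hg5 hnil
      rw [hx3] at c1
      rw [hW.perm [] (hp.cons _), hW.perm [] (List.Perm.swap _ _ _), c1]
      simp
    have hd2 : (X - C x) ^ 2 ∣ D := by
      refine dvd_sub (Dvd.dvd.mul_left ?_ _) (Dvd.dvd.mul_left ?_ _)
      · exact List.dvd_prod (List.mem_map.2 ⟨x, hx, rfl⟩)
      · refine St_dvd hEn hx fun y hy => ?_
        rcases eq_or_ne x y with rfl | hxy
        · exact h_self_ne hη hx0
        · rw [h_symm]
          have hy' : y ∈ L' := by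
            have := (hp.mem_iff (a := y)).1 hy
            rcases List.mem_cons.1 this with hh | hh
            · exact absurd hh.symm hxy
            · exact hh
          exact h_ne hη (hg.sep hy')
    unfold ff
    refine IsCoprime.mul_dvd ?_ hd2 (IsCoprime.mul_dvd ?_ (dvd_iff_isRoot.2 hz3)
      (dvd_iff_isRoot.2 hz5))
    · have g3 := pow_mul_inj hη hx0 (j := 0) (k := 3) (by norm_num) (by norm_num)
      have g5 := pow_mul_inj hη hx0 (j := 0) (k := 5) (by norm_num) (by norm_num)
      rw [pow_zero, one_mul] at g3 g5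
      exact IsCoprime.pow_left (IsCoprime.mul_right (cop g3) (cop g5))
    · exact cop (pow_mul_inj hη hx0 (by norm_num) (by norm_num))
  have hall : (L.map (ff η)).prod ∣ D :=
    prod_dvd (hL.tail.2.imp fun hs => ff_cop hη hs) hdvd
  have hD0 : D = 0 := by
    by_contra hne
    obtain ⟨Q, hQ⟩ := hall
    have hQ0 : Q ≠ 0 := by rintro rfl; exact hne (by rw [hQ, mul_zero])
    have h1 : D.natDegree = 4 * L.length + Q.natDegree := by
      rw [hQ, (prodff L).1.natDegree_mul' hQ0, (prodff L).2]
    have h2 : D.natDegree = 4 * L.length := by omega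
    apply hne
    rw [← leadingCoeff_eq_zero, leadingCoeff, h2, htop]
  -- conclusion
  have hgood := hL.good hη
  have hne : ∀ x ∈ L, h η t x ≠ 0 := fun x hx => h_ne hη ((hL.sep hx).symm hη)
  have h1 : D.eval t = 0 := by rw [hD0, eval_zero]
  rw [hD, eval_sub, eval_mul, eval_mul, eval_C, ← v t hgood, sqp_eval, St_eval hEn hne] at h1
  have h2 : (L.map (fun x => t - x)).prod ≠ 0 := by
    rw [Ne, List.prod_eq_zero_iff]
    intro hh
    obtain ⟨x, hx, hx'⟩ := List.mem_map.1 hh
    exact (hgood x hx).1 (sub_eq_zero.1 hx')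
  have h3 : (L.map (fun y => h η t y / (t - y))).prod * (L.map (fun x => t - x)).prod =
      (L.map (fun y => h η t y)).prod := by
    rw [list_prod_mul]
    congr 1
    refine List.map_congr_left fun y hy => ?_
    exact div_mul_cancel₀ _ (sub_ne_zero.2 (hgood y hy).1)
  have h4 : pts (t :: L) E = some t :: pts L E := rfl
  rw [DD, ← hE, h4, Pr]
  rw [← h3] at h1
  have h5 : (W (t :: L) [] - ((L.map (fun y => h η t y / (t - y))).prod * Pr η L) ^ 2 *
      dt (AA η) (some t :: pts L E)) * (L.map (fun x => t - x)).prod ^ 2 = 0 := by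
    linear_combination h1
  rcases mul_eq_zero.1 h5 with h6 | h6
  · exact sub_eq_zero.1 h6
  · exact absurd (pow_eq_zero_iff (two_ne_zero) |>.1 h6) h2

end NUGas.QD
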