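import Mathlib

/-!
# Bordered determinants of antisymmetric kernels on lists
-/

set_option autoImplicit false

open Polynomial Matrix

namespace NUGas.QD

variable {R : Type*} [CommRing R] {α : Type*}

/-- matrix of a kernel on a list -/
def mt (K : α → α → R) (S : List α) : Matrix (Fin S.length) (Fin S.length) R :=
  Matrix.of fun i j => K (S.get i) (S.get j)

/-- its determinant -/
def dt (K : α → α → R) (S : List α) : R := (mt K S).det

/-- the bordered matrix -/
def bm (u : α → R) (K : α → α → R) (S : List α) :
    Matrix (Fin S.length ⊕ PUnit.{1}) (Fin S.length ⊕ PUnit.{1}) R :=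
  Matrix.fromBlocks (mt K S) (Matrix.of fun i _ => - u (S.get i)) (Matrix.of fun _ j => u (S.get j)) 0

/-- its determinant -/
def bd (u : α → R) (K : α → α → R) (S : List α) : R := (bm u K S).det

theorem dt_nil (K : α → α → R) : dt K [] = 1 := by
  simp [dt]

theorem dt_cons (K : α → α → R) (t : α) (S : List α) (h0 : K t t = 0)
    (h : ∀ s ∈ S, K s t = - K t s) : dt K (t :: S) = bd (K t) K S := by
  unfold dt bd
  rw [← Matrix.det_submatrix_equiv_self
    ((finSuccEquiv S.length).trans (Equiv.optionEquivSumPUnit (Fin S.length))) (bm (K t) K S)]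
  congr 1
  ext i j
  refine Fin.cases ?_ (fun i => ?_) i
  · refine Fin.cases ?_ (fun j => ?_) j
    · simp [mt, bm, h0]
    · simp [mt, bm]
  · refine Fin.cases ?_ (fun j => ?_) j
    · have := h (S.get i) (List.get_mem _ _)
      simpa [mt, bm] using this
    · simp [mt, bm]

theorem exists_equiv {L L' : List α} (h : L.Perm L') :
    ∃ σ : Fin L.length ≃ Fin L'.length, ∀ i, L'.get (σ i) = L.get i := by
  induction h with
  | nil => exact ⟨Equiv.refl _, fun i => rfl⟩
  | @cons a L L' _ ih =>
    obtain ⟨σ, hσ⟩ := ih
    refine ⟨((finSuccEquiv L.length).trans (Equiv.optionCongr σ)).trans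
      (finSuccEquiv L'.length).symm, fun i => ?_⟩
    refine Fin.cases ?_ (fun i => ?_) i
    · simp
    · have := hσ i
      simpa using this
  | swap a b L =>
    refine ⟨Equiv.swap (0 : Fin (L.length + 2)) 1, fun i => ?_⟩
    refine Fin.cases ?_ (fun i => ?_) i
    · simp
    · refine Fin.cases ?_ (fun i => ?_) i
      · have : (Fin.succ (0 : Fin (L.length + 1))) = (1 : Fin (L.length + 2)) := rfl
        rw [this]
        simp
      · rw [Equiv.swap_apply_of_ne_of_ne]
        · rfl
        · exact Fin.succ_ne_zero _
        · intro hh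
          have : (1 : Fin (L.length + 2)) = Fin.succ 0 := rfl
          rw [this] at hh
          exact Fin.succ_ne_zero _ (Fin.succ_injective _ hh)
  | trans _ _ ih1 ih2 =>
    obtain ⟨σ, hσ⟩ := ih1
    obtain ⟨τ, hτ⟩ := ih2
    exact ⟨σ.trans τ, fun i => by rw [Equiv.trans_apply, hτ, hσ]⟩

theorem dt_perm (K : α → α → R) {S S' : List α} (h : S.Perm S') : dt K S = dt K S' := by
  obtain ⟨σ, hσ⟩ := exists_equiv h
  unfold dt
  rw [← Matrix.det_submatrix_equiv_self σ (mt K S')]
  congr 1
  ext i j
  simp only [mt, Matrix.of_apply, Matrix.submatrix_apply, hσ]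

theorem bd_perm (u : α → R) (K : α → α → R) {S S' : List α} (h : S.Perm S') :
    bd u K S = bd u K S' := by
  obtain ⟨σ, hσ⟩ := exists_equiv h
  unfold bd
  rw [← Matrix.det_submatrix_equiv_self (Equiv.sumCongr σ (Equiv.refl _)) (bm u K S')]
  congr 1
  ext i j
  rcases i with i | i <;> rcases j with j | j <;>
    simp only [bm, mt, Matrix.of_apply, Matrix.submatrix_apply, Equiv.sumCongr_apply, Sum.map_inl,
      Sum.map_inr, Matrix.fromBlocks_apply₁₁, Matrix.fromBlocks_apply₁₂, Matrix.fromBlocks_apply₂₁,
      Matrix.fromBlocks_apply₂₂, hσ, Equiv.refl_apply, Matrix.zero_apply]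

theorem bd_congr' (u u' : α → R) (K : α → α → R) {S : List α} (h : ∀ s ∈ S, u s = u' s) :
    bd u K S = bd u' K S := by
  unfold bd
  congr 1
  ext i j
  rcases i with i | i <;> rcases j with j | j
  · rfl
  · have := h (S.get i) (List.get_mem _ _)
    simp only [List.get_eq_getElem] at this
    simp [bm, this]
  · have := h (S.get j) (List.get_mem _ _)
    simp only [List.get_eq_getElem] at this
    simp [bm, this]
  · rfl

/-- congruence -/
theorem bd_add (u w : α → R) (K : α → α → R) {S : List α} (d c : R) (k : Fin S.length)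
    (hK : ∀ s ∈ S, ∀ t ∈ S, K s t = - K t s) (hk : K (S.get k) (S.get k) = 0)
    (h : ∀ s ∈ S, u s = d * w s + c * K (S.get k) s) : bd u K S = d ^ 2 * bd w K S := by
  set g : Matrix PUnit.{1} (Fin S.length) R := Matrix.of fun _ j => if j = k then c else 0 with hg
  set P : Matrix (Fin S.length ⊕ PUnit.{1}) (Fin S.length ⊕ PUnit.{1}) R :=
    Matrix.fromBlocks 1 0 g (Matrix.of fun _ _ => d) with hP
  have hdet : P.det = d := by
    rw [hP, Matrix.det_fromBlocks_zero₁₂]
    simp
  have hM : bm u K S = P * bm w K S * Pᵀ := by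
    rw [hP, bm, bm, Matrix.fromBlocks_transpose, Matrix.fromBlocks_multiply,
      Matrix.fromBlocks_multiply]
    congr 1
    · simp
    · ext i j
      have := h (S.get i) (List.get_mem _ _)
      have h2 := hK (S.get i) (List.get_mem _ _) (S.get k) (List.get_mem _ _)
      simp only [Matrix.of_apply, Matrix.one_mul, Matrix.zero_mul, add_zero, Matrix.mul_apply,
        Matrix.add_apply, hg, Matrix.transpose_apply, mt, mul_ite, mul_zero, Finset.sum_ite_eq',
        Finset.mem_univ, if_true, Finset.univ_unique, Finset.sum_singleton]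
      rw [this]
      simp only [List.get_eq_getElem] at *
      rw [h2]
      ring
    · ext i j
      have := h (S.get j) (List.get_mem _ _)
      simp only [Matrix.of_apply, Matrix.transpose_one, Matrix.mul_one, Matrix.transpose_zero,
        Matrix.mul_zero, add_zero, Matrix.mul_apply,
        Matrix.add_apply, hg, mt, ite_mul, zero_mul, Finset.sum_ite_eq',
        Finset.mem_univ, if_true, Finset.univ_unique, Finset.sum_singleton]
      rw [this]
      simp only [List.get_eq_getElem, Matrix.zero_apply] at *
      ring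
    · ext i j
      have h2 := hk
      simp only [Matrix.of_apply, Matrix.mul_zero, add_zero, Matrix.mul_apply, Matrix.zero_apply,
        Matrix.add_apply, hg, mt, ite_mul, zero_mul, mul_ite, mul_zero, Finset.sum_ite_eq',
        Matrix.transpose_apply,
        Finset.mem_univ, if_true, Finset.univ_unique, Finset.sum_singleton]
      simp only [List.get_eq_getElem] at *
      rw [h2]
      ring
  unfold bd
  rw [hM, Matrix.det_mul, Matrix.det_mul, Matrix.det_transpose, hdet]
  ring

theorem bd_smul (u w : α → R) (K : α → α → R) {S : List α} (d : R)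
    (h : ∀ s ∈ S, u s = d * w s) : bd u K S = d ^ 2 * bd w K S := by
  set P : Matrix (Fin S.length ⊕ PUnit.{1}) (Fin S.length ⊕ PUnit.{1}) R :=
    Matrix.fromBlocks 1 0 0 (Matrix.of fun _ _ => d) with hP
  have hdet : P.det = d := by
    rw [hP, Matrix.det_fromBlocks_zero₁₂]
    simp
  have hM : bm u K S = P * bm w K S * Pᵀ := by
    rw [hP, bm, bm, Matrix.fromBlocks_transpose, Matrix.fromBlocks_multiply,
      Matrix.fromBlocks_multiply]
    congr 1
    · simp
    · ext i j
      have := h (S.get i) (List.get_mem _ _)
      simp only [Matrix.of_apply, Matrix.one_mul, Matrix.zero_mul, add_zero, Matrix.mul_apply,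
        Matrix.add_apply, Matrix.transpose_apply, Matrix.transpose_zero, Matrix.mul_zero, zero_add,
        Finset.univ_unique, Finset.sum_singleton]
      rw [this]
      simp only [Matrix.zero_apply]
      ring
    · ext i j
      have := h (S.get j) (List.get_mem _ _)
      simp only [Matrix.of_apply, Matrix.transpose_one, Matrix.mul_one, Matrix.transpose_zero,
        Matrix.mul_zero, add_zero, Matrix.mul_apply, Matrix.zero_mul, zero_add,
        Finset.univ_unique, Finset.sum_singleton]
      rw [this]
    · ext i j
      simp [Matrix.mul_apply]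
  unfold bd
  rw [hM, Matrix.det_mul, Matrix.det_mul, Matrix.det_transpose, hdet]
  ring

/-- the equivalence of index types -/
def ef (n : ℕ) : Fin (n + 1) ≃ Fin n ⊕ PUnit.{1} :=
  (finSuccEquiv n).trans (Equiv.optionEquivSumPUnit (Fin n))

theorem ef_zero (n : ℕ) : ef n 0 = Sum.inr PUnit.unit := by
  simp [ef]

theorem ef_succ (n : ℕ) (i : Fin n) : ef n i.succ = Sum.inl i := by
  simp [ef]

/-- only one entry of the border -/
theorem bd_single (u : α → R) (K : α → α → R) (x : α) (S : List α)
    (hu : ∀ s ∈ S, u s = 0) : bd u K (x :: S) = u x ^ 2 * dt K S := by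
  have e : bd u K (x :: S) = ((bm u K (x :: S)).submatrix
      (ef (S.length + 1)) (ef (S.length + 1))).det :=
    (Matrix.det_submatrix_equiv_self _ _).symm
  have g0 : ∀ j : Fin (S.length + 1), bm u K (x :: S) (Sum.inr PUnit.unit) (Sum.inl j) =
      u ((x :: S).get j) := fun j => rfl
  have g1 : ∀ j : Fin (S.length + 1), bm u K (x :: S) (Sum.inl j) (Sum.inr PUnit.unit) =
      - u ((x :: S).get j) := fun j => rfl
  have g2 : bm u K (x :: S) (Sum.inr PUnit.unit) (Sum.inr PUnit.unit) = 0 := rfl
  have g3 : ∀ i j : Fin (S.length + 1), bm u K (x :: S) (Sum.inl i) (Sum.inl j) =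
      K ((x :: S).get i) ((x :: S).get j) := fun i j => rfl
  have h1 : (1 : Fin (S.length + 2)) = Fin.succ 0 := rfl
  have h0 : (1 : Fin (S.length + 2)).succAbove (0 : Fin (S.length + 1)) = 0 := by
    rw [h1, Fin.succ_succAbove_zero]
  rw [e, Matrix.det_succ_row_zero, Finset.sum_eq_single (1 : Fin (S.length + 2))]
  · rw [Matrix.det_succ_column_zero, Finset.sum_eq_single (0 : Fin (S.length + 1))]
    · have e2 : ((((bm u K (x :: S)).submatrix (ef (S.length + 1)) (ef (S.length + 1))).submatrix
          Fin.succ (Fin.succAbove 1)).submatrix (Fin.succAbove 0) Fin.succ) = mt K S := by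
        ext i j
        have h2 : (1 : Fin (S.length + 2)).succAbove j.succ = j.succ.succ := by
          rw [h1, Fin.succ_succAbove_succ, Fin.zero_succAbove]
        simp only [Matrix.submatrix_apply, h2, Fin.zero_succAbove, ef_succ, g3]
        rfl
      rw [e2]
      simp only [Matrix.submatrix_apply, h0]
      rw [h1, ef_zero, ef_succ, g0, g1]
      simp only [Fin.succ_zero_eq_one, Fin.val_one, Fin.val_zero, pow_zero, pow_one]
      have e3 : (x :: S).get (0 : Fin (S.length + 1)) = x := rfl
      rw [e3, dt]
      ring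
    · intro b _ hb
      obtain ⟨b, rfl⟩ := Fin.exists_succ_eq.2 hb
      have := hu (S.get b) (List.get_mem _ _)
      simp only [Matrix.submatrix_apply, h0]
      rw [ef_zero, ef_succ, g1]
      have e3 : (x :: S).get (Fin.succ b) = S.get b := rfl
      rw [e3, this]
      simp
    · intro h
      exact absurd (Finset.mem_univ _) h
  · intro b _ hb
    rcases Fin.eq_zero_or_eq_succ b with rfl | ⟨b, rfl⟩
    · simp only [Matrix.submatrix_apply]
      rw [ef_zero, g2]
      simp
    · rcases Fin.eq_zero_or_eq_succ b with rfl | ⟨b, rfl⟩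
      · exact absurd rfl hb
      · have := hu (S.get b) (List.get_mem _ _)
        simp only [Matrix.submatrix_apply]
        rw [ef_zero, ef_succ, g0]
        have e3 : (x :: S).get (Fin.succ b) = S.get b := rfl
        rw [e3, this]
        simp
  · intro h
    exact absurd (Finset.mem_univ _) h

end NUGas.QD
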