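import Pool.Agent.NUQD.LinA
import Pool.Agent.NUF.Gas.Uniq2

/-!
# The bordered determinant as a polynomial in the new line
-/

set_option autoImplicit false

open Polynomial Matrix

namespace NUGas.QD

/-! ### Top coefficients of determinants -/

theorem prod_top {ι : Type*} (s : Finset ι) (f : ι → ℂ[X]) (d : ι → ℕ)
    (h : ∀ i ∈ s, (f i).natDegree ≤ d i) :
    (∏ i ∈ s, f i).natDegree ≤ ∑ i ∈ s, d i ∧
      (∏ i ∈ s, f i).coeff (∑ i ∈ s, d i) = ∏ i ∈ s, (f i).coeff (d i) := by
  classical
  induction s using Finset.induction_on with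
  | empty => simp
  | insert a s ha ih =>
    obtain ⟨h1, h2⟩ := ih fun i hi => h i (Finset.mem_insert_of_mem hi)
    have h3 := h a (Finset.mem_insert_self a s)
    rw [Finset.prod_insert ha, Finset.sum_insert ha, Finset.prod_insert ha]
    exact ⟨natDegree_mul_le.trans (add_le_add h3 h1), by
      rw [coeff_mul_add_eq_of_natDegree_le h3 h1, h2]⟩

theorem det_top {ι : Type*} [Fintype ι] [DecidableEq ι] (M : Matrix ι ι ℂ[X]) (r c : ι → ℕ)
    (h : ∀ i j, (M i j).natDegree ≤ r i + c j) :
    M.det.natDegree ≤ ∑ i, r i + ∑ i, c i ∧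
      M.det.coeff (∑ i, r i + ∑ i, c i) =
        (Matrix.of fun i j => (M i j).coeff (r i + c j)).det := by
  have key : ∀ σ : Equiv.Perm ι, (∏ i, M (σ i) i).natDegree ≤ ∑ i, r i + ∑ i, c i ∧
      (∏ i, M (σ i) i).coeff (∑ i, r i + ∑ i, c i) = ∏ i, (M (σ i) i).coeff (r (σ i) + c i) := by
    intro σ
    have e : ∑ i, r i + ∑ i, c i = ∑ i, (r (σ i) + c i) := by
      rw [Finset.sum_add_distrib, Equiv.sum_comp σ r]
    rw [e]
    exact prod_top Finset.univ (fun i => M (σ i) i) (fun i => r (σ i) + c i) fun i _ => h _ _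
  constructor
  · rw [Matrix.det_apply]
    refine natDegree_sum_le_of_forall_le _ _ fun σ _ => ?_
    refine (natDegree_smul_le _ _).trans (key σ).1
  · rw [Matrix.det_apply, Matrix.det_apply, finset_sum_coeff]
    refine Finset.sum_congr rfl fun σ _ => ?_
    rw [Units.smul_def, Units.smul_def, coeff_smul, (key σ).2]
    rfl

/-! ### Kernel and border polynomials -/

variable {η : ℂ}

/-- the quadratic form -/
def h (η a b : ℂ) : ℂ := a ^ 2 + (η - η ^ 3) * a * b + b ^ 2

/-- the antisymmetric kernel on finite points and the point at infinity -/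
noncomputable def AA (η : ℂ) : Option ℂ → Option ℂ → ℂ
  | some a, some b => (a ^ 2 - b ^ 2) / h η a b
  | some _, none => -1
  | none, some _ => 1
  | none, none => 0

theorem h_symm (a b : ℂ) : h η a b = h η b a := by unfold h; ring

theorem AA_self (a : Option ℂ) : AA η a a = 0 := by
  rcases a with _ | a
  · rfl
  · simp [AA]

theorem AA_anti (a b : Option ℂ) : AA η a b = - AA η b a := by
  rcases a with _ | a <;> rcases b with _ | b
  · simp [AA]
  · simp [AA]
  · simp [AA]
  · simp only [AA]
    rw [h_symm b a, ← neg_div]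
    congr 1
    ring

/-- the quadratic form as a polynomial -/
noncomputable def H (η x : ℂ) : ℂ[X] := X ^ 2 + C ((η - η ^ 3) * x) * X + C (x ^ 2)

theorem H_eval (x t : ℂ) : (H η x).eval t = h η t x := by
  simp [H, h]
  ring

theorem H_natDegree (x : ℂ) : (H η x).natDegree = 2 := by
  unfold H
  compute_degree!

theorem H_monic (x : ℂ) : (H η x).Monic := by
  unfold Polynomial.Monic Polynomial.leadingCoeff
  rw [H_natDegree]
  unfold H
  rw [coeff_add, coeff_add, coeff_X_pow, coeff_C_mul, coeff_X, coeff_C]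
  norm_num

/-- the border -/
noncomputable def pX (η : ℂ) (L : List ℂ) : Option ℂ → ℂ[X]
  | some x => (X ^ 2 - C (x ^ 2)) * ((L.erase x).map (H η)).prod
  | none => - (L.map (H η)).prod

theorem prodH_monic (L : List ℂ) : ((L.map (H η)).prod).Monic :=
  monic_list_prod' _ fun p hp => by
    obtain ⟨a, _, rfl⟩ := List.mem_map.1 hp
    exact H_monic a

theorem prodH_natDegree (L : List ℂ) : ((L.map (H η)).prod).natDegree = 2 * L.length := by
  induction L with
  | nil => simp
  | cons a L ih =>
    rw [List.map_cons, List.prod_cons, (H_monic a).natDegree_mul (prodH_monic L), ih, H_natDegree,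
      List.length_cons]
    ring

theorem prodH_eval (L : List ℂ) (t : ℂ) :
    ((L.map (H η)).prod).eval t = (L.map (fun y => h η t y)).prod := by
  induction L with
  | nil => simp
  | cons a L ih => rw [List.map_cons, List.prod_cons, eval_mul, ih, H_eval]; simp

theorem pX_some {L : List ℂ} {x : ℂ} (hx : x ∈ L) :
    (pX η L (some x)).Monic ∧ (pX η L (some x)).natDegree = 2 * L.length := by
  have h1 : (X ^ 2 - C (x ^ 2) : ℂ[X]).Monic := monic_X_pow_sub_C _ two_ne_zero
  have h2 := prodH_monic (η := η) (L.erase x)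
  refine ⟨h1.mul h2, ?_⟩
  unfold pX
  rw [h1.natDegree_mul h2, natDegree_X_pow_sub_C, prodH_natDegree, List.length_erase_of_mem hx]
  have := List.length_pos_of_mem hx
  omega

theorem pX_none_natDegree (L : List ℂ) : (pX η L none).natDegree = 2 * L.length := by
  unfold pX
  rw [natDegree_neg, prodH_natDegree]

theorem pX_eval {L : List ℂ} {t : ℂ} {s : Option ℂ} (hs : ∀ x, s = some x → x ∈ L ∧ h η t x ≠ 0) :
    (pX η L s).eval t = (L.map (fun y => h η t y)).prod * AA η (some t) s := by
  rcases s with _ | x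
  · simp only [pX, AA, eval_neg, prodH_eval]
    ring
  · obtain ⟨hx, h0⟩ := hs x rfl
    simp only [pX, AA, eval_mul, prodH_eval]
    rw [← List.prod_map_erase (fun y => h η t y) hx]
    simp
    field_simp

/-- lists of points -/
def pts (L : List ℂ) (E : List (Option ℂ)) : List (Option ℂ) := L.map some ++ E

theorem mem_pts {L : List ℂ} {E : List (Option ℂ)} (hE : ∀ e ∈ E, e = none) {s : Option ℂ}
    (hs : s ∈ pts L E) : ∀ x, s = some x → x ∈ L := by
  rintro x rfl
  rcases List.mem_append.1 hs with h1 | h1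
  · obtain ⟨a, ha, hh⟩ := List.mem_map.1 h1
    exact (Option.some_injective _ hh) ▸ ha
  · exact absurd (hE _ h1) (by simp)

/-- the bordered determinant as a polynomial -/
noncomputable def St (η : ℂ) (L : List ℂ) (E : List (Option ℂ)) : ℂ[X] :=
  bd (pX η L) (fun a b => C (AA η a b)) (pts L E)

theorem bd_eval (u : Option ℂ → ℂ[X]) (K : Option ℂ → Option ℂ → ℂ[X]) (S : List (Option ℂ)) (t : ℂ) :
    (bd u K S).eval t = bd (fun s => (u s).eval t) (fun a b => (K a b).eval t) S := by
  unfold bd
  rw [← coe_evalRingHom, RingHom.map_det]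
  congr 1
  ext i j
  rcases i with i | i <;> rcases j with j | j <;> simp [bm, mt]

theorem St_eval {L : List ℂ} {E : List (Option ℂ)} (hE : ∀ e ∈ E, e = none) {t : ℂ}
    (ht : ∀ x ∈ L, h η t x ≠ 0) :
    (St η L E).eval t = (L.map (fun y => h η t y)).prod ^ 2 * dt (AA η) (some t :: pts L E) := by
  rw [St, bd_eval, dt_cons _ _ _ (AA_self _) (fun s _ => AA_anti _ _)]
  simp only [eval_C]
  exact bd_smul _ _ _ _ fun s hs => pX_eval fun x hx => ⟨mem_pts hE hs x hx, ht x (mem_pts hE hs x hx)⟩

theorem St_natDegree_coeff {L : List ℂ} {E : List (Option ℂ)} (hE : ∀ e ∈ E, e = none) :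
    (St η L E).natDegree ≤ 4 * L.length ∧
      (St η L E).coeff (4 * L.length) =
        bd (fun s => if s = none then -1 else 1) (AA η) (pts L E) := by
  classical
  have key := det_top (bm (pX η L) (fun a b => C (AA η a b)) (pts L E))
    (Sum.elim (fun _ => 0) (fun _ => 2 * L.length)) (Sum.elim (fun _ => 0) (fun _ => 2 * L.length)) ?_
  · have e : ∑ i : Fin (pts L E).length ⊕ PUnit.{1}, (Sum.elim (fun _ => 0) (fun _ => 2 * L.length) :
        Fin (pts L E).length ⊕ PUnit.{1} → ℕ) i + ∑ i : Fin (pts L E).length ⊕ PUnit.{1},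
        (Sum.elim (fun _ => 0) (fun _ => 2 * L.length) : Fin (pts L E).length ⊕ PUnit.{1} → ℕ) i =
        4 * L.length := by
      rw [Fintype.sum_sum_type]
      simp
      ring
    rw [e] at key
    refine ⟨key.1, ?_⟩
    unfold St bd
    rw [key.2]
    congr 1
    ext i j
    have hc : ∀ s ∈ pts L E, (pX η L s).coeff (2 * L.length) = if s = none then -1 else 1 := by
      intro s hs
      rcases s with _ | x
      · have h1 := (prodH_monic (η := η) L).coeff_natDegree
        rw [prodH_natDegree] at h1
        simp [pX, h1]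
      · obtain ⟨h1, h2⟩ := pX_some (η := η) (mem_pts hE hs x rfl)
        have := h1.coeff_natDegree
        rw [h2] at this
        simp [this]
    rcases i with i | i <;> rcases j with j | j
    · simp [bm, mt]
    · have := hc _ (List.get_mem (pts L E) i)
      simp only [bm, Matrix.of_apply, Matrix.fromBlocks_apply₁₂, Sum.elim_inl, Sum.elim_inr, zero_add,
        coeff_neg, this]
    · have := hc _ (List.get_mem (pts L E) j)
      simp only [bm, Matrix.of_apply, Matrix.fromBlocks_apply₂₁, Sum.elim_inl, Sum.elim_inr, add_zero,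
        this]
    · simp [bm]
  · intro i j
    have hd : ∀ s ∈ pts L E, (pX η L s).natDegree ≤ 2 * L.length := by
      intro s hs
      rcases s with _ | x
      · exact (pX_none_natDegree L).le
      · exact (pX_some (mem_pts hE hs x rfl)).2.le
    rcases i with i | i <;> rcases j with j | j
    · simp [bm, mt]
    · have := hd _ (List.get_mem (pts L E) i)
      simpa [bm] using this
    · have := hd _ (List.get_mem (pts L E) j)
      simpa [bm] using this
    · simp [bm]

/-- double zeros at the lines -/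
theorem St_dvd {L : List ℂ} {E : List (Option ℂ)} (hE : ∀ e ∈ E, e = none) {x : ℂ} (hx : x ∈ L)
    (h0 : ∀ y ∈ L, h η x y ≠ 0) : (X - C x) ^ 2 ∣ St η L E := by
  have hmem : (some x) ∈ pts L E := List.mem_append.2 (Or.inl (List.mem_map.2 ⟨x, hx, rfl⟩))
  obtain ⟨k, hk⟩ := List.get_of_mem hmem
  set c : ℂ := (L.map (fun y => h η x y)).prod with hc
  have hw : ∀ s ∈ pts L E, ∃ w : ℂ[X], pX η L s = (X - C x) * w + C c * C (AA η ((pts L E).get k) s) := by
    intro s hs
    rw [hk]
    have h1 : (X - C x) ∣ (pX η L s - C c * C (AA η (some x) s)) := by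
      rw [dvd_iff_isRoot, IsRoot.def, eval_sub, pX_eval (η := η) fun y hy =>
        ⟨mem_pts hE hs y hy, h0 y (mem_pts hE hs y hy)⟩]
      simp [hc]
    obtain ⟨w, hw⟩ := h1
    exact ⟨w, by rw [← hw]; ring⟩
  classical
  choose! w hw' using hw
  have := bd_add (pX η L) w (fun a b => C (AA η a b)) (S := pts L E) (X - C x) (C c) k
    (fun s _ t _ => by rw [AA_anti s t, C_neg]) (by rw [AA_self, C_0]) hw'
  unfold St
  rw [this]
  exact dvd_mul_right _ _

theorem h_eta3 (hη : η ^ 4 = -1) (x : ℂ) : h η (η ^ 3 * x) x = 0 := by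
  unfold h
  have e6 : η ^ 6 = - η ^ 2 := by
    rw [show (6 : ℕ) = 4 + 2 from rfl, pow_add, hη]; ring
  linear_combination (x ^ 2) * (1 : ℂ) * hη

theorem h_eta5 (hη : η ^ 4 = -1) (x : ℂ) : h η (η ^ 5 * x) x = 0 := by
  unfold h
  linear_combination (x ^ 2) * (η ^ 6 + 1 - η ^ 4) * hη

/-- value at a node -/
theorem St_node {L : List ℂ} {E : List (Option ℂ)} (hE : ∀ e ∈ E, e = none) {x z : ℂ}
    (hxL : x ∉ L) (hz : h η z x = 0) :
    (St η (x :: L) E).eval z =
      ((z ^ 2 - x ^ 2) * (L.map (fun y => h η z y)).prod) ^ 2 * dt (AA η) (pts L E) := by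
  rw [St, bd_eval]
  simp only [eval_C]
  show bd _ _ (some x :: pts L E) = _
  rw [bd_single]
  · congr 2
    simp only [pX, List.erase_cons_head, eval_mul, prodH_eval]
    simp
  · intro s hs
    rcases s with _ | y
    · simp only [pX, List.map_cons, List.prod_cons, eval_neg, eval_mul, H_eval, hz]
      ring
    · have hy := mem_pts hE hs y rfl
      have hne : x ≠ y := fun h => hxL (h ▸ hy)
      simp only [pX]
      rw [List.erase_cons_tail (by simpa using hne), List.map_cons, List.prod_cons, eval_mul,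
        eval_mul, H_eval, hz]
      ring

theorem St_perm {L L' : List ℂ} (E : List (Option ℂ)) (hp : L.Perm L') : St η L E = St η L' E := by
  unfold St
  have h1 : (pts L E).Perm (pts L' E) := (hp.map some).append_right E
  rw [bd_perm _ _ h1]
  refine bd_congr' _ _ _ fun s _ => ?_
  rcases s with _ | x
  · simp only [pX]
    rw [(hp.map (H η)).prod_eq]
  · simp only [pX]
    rw [((hp.erase x).map (H η)).prod_eq]

end NUGas.QD
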