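import Pool.Agent.NUQD.DetF

/-!
# The disc function at loop weight zero is a determinant (two groups)
-/

set_option autoImplicit false

open Polynomial Matrix Filter Topology

namespace NUGas.QD

variable {η : ℂ}

/-! ### The limit of two far lines -/

/-- two far points and the old ones -/
noncomputable def pt2 (T : ℂ) : Bool ⊕ Option ℂ → Option ℂ
  | .inl false => some T
  | .inl true => some (2 * T)
  | .inr s => s

/-- the kernel with two far points -/
noncomputable def K2 (η T : ℂ) (x y : Bool ⊕ Option ℂ) : ℂ := AA η (pt2 T x) (pt2 T y)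

/-- the value at infinity -/
noncomputable def lead (s : Option ℂ) : ℂ := if s = none then -1 else 1

/-- the limit kernel -/
noncomputable def Kinf (η : ℂ) : Bool ⊕ Option ℂ → Bool ⊕ Option ℂ → ℂ
  | .inl false, .inl false => 0
  | .inl false, .inl true => -3 / h η 1 2
  | .inl true, .inl false => 3 / h η 1 2
  | .inl true, .inl true => 0
  | .inl _, .inr s => lead s
  | .inr s, .inl _ => - lead s
  | .inr s, .inr t => AA η s t

theorem mt_map {R : Type*} [CommRing R] {α β : Type*} (K : α → α → R) (f : β → α) (S : List β) :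
    dt K (S.map f) = dt (fun a b => K (f a) (f b)) S := by
  have hl : (S.map f).length = S.length := List.length_map _
  unfold dt
  rw [← Matrix.det_submatrix_equiv_self (finCongr hl.symm) (mt K (S.map f))]
  congr 1
  ext i j
  simp [mt]

theorem tends_inv (c : ℂ) : Tendsto (fun T : ℝ => c / (T : ℂ)) atTop (𝓝 0) := by
  have : Tendsto (fun T : ℝ => ((T⁻¹ : ℝ) : ℂ)) atTop (𝓝 ((0 : ℝ) : ℂ)) :=
    (Complex.continuous_ofReal.tendsto 0).comp tendsto_inv_atTop_zero
  have h2 := this.const_mul c
  simp only [Complex.ofReal_zero, mul_zero] at h2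
  refine h2.congr fun T => ?_
  rw [Complex.ofReal_inv]
  rfl

theorem tends_AA {k : ℂ} (hk : k ≠ 0) (s : Option ℂ) :
    Tendsto (fun T : ℝ => AA η (some (k * T)) s) atTop (𝓝 (lead s)) := by
  rcases s with _ | a
  · simp only [AA, lead, if_true]
    exact tendsto_const_nhds
  · have h1 := tends_inv a
    have h2 : Tendsto (fun T : ℝ => (k ^ 2 - (a / (T : ℂ)) ^ 2) /
        (k ^ 2 + (η - η ^ 3) * k * (a / (T : ℂ)) + (a / (T : ℂ)) ^ 2)) atTop
        (𝓝 ((k ^ 2 - 0 ^ 2) / (k ^ 2 + (η - η ^ 3) * k * 0 + 0 ^ 2))) := by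
      refine Tendsto.div (tendsto_const_nhds.sub (h1.pow 2))
        ((tendsto_const_nhds.add (tendsto_const_nhds.mul h1)).add (h1.pow 2)) ?_
      simpa using hk
    have e : ((k ^ 2 - 0 ^ 2) / (k ^ 2 + (η - η ^ 3) * k * 0 + 0 ^ 2) : ℂ) = lead (some a) := by
      simp only [lead]
      rw [if_neg (by simp)]
      field_simp
      ring
    rw [e] at h2
    refine h2.congr' ?_
    filter_upwards [eventually_gt_atTop (0 : ℝ)] with T hT
    have hT' : (T : ℂ) ≠ 0 := by exact_mod_cast hT.ne'
    have e1 : ((k * (T : ℂ)) ^ 2 - a ^ 2) = (T : ℂ) ^ 2 * (k ^ 2 - (a / (T : ℂ)) ^ 2) := by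
      field_simp
    have e2 : h η (k * (T : ℂ)) a = (T : ℂ) ^ 2 * (k ^ 2 + (η - η ^ 3) * k * (a / (T : ℂ)) +
        (a / (T : ℂ)) ^ 2) := by
      unfold h
      field_simp
    simp only [AA]
    rw [e1, e2, mul_div_mul_left _ _ (pow_ne_zero 2 hT')]

theorem tends_K2 (x y : Bool ⊕ Option ℂ) :
    Tendsto (fun T : ℝ => K2 η T x y) atTop (𝓝 (Kinf η x y)) := by
  have g : ∀ k : ℂ, k ≠ 0 → ∀ s : Option ℂ,
      Tendsto (fun T : ℝ => AA η (some (k * T)) s) atTop (𝓝 (lead s)) := fun k hk s => tends_AA hk s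
  have g' : ∀ k : ℂ, k ≠ 0 → ∀ s : Option ℂ,
      Tendsto (fun T : ℝ => AA η s (some (k * T))) atTop (𝓝 (- lead s)) := fun k hk s => by
    refine (g k hk s).neg.congr fun T => ?_
    rw [AA_anti (some _) s, neg_neg]
  have e12 : Tendsto (fun T : ℝ => AA η (some (T : ℂ)) (some (2 * (T : ℂ)))) atTop
      (𝓝 (-3 / h η 1 2)) := by
    refine tendsto_const_nhds.congr' ?_
    filter_upwards [eventually_gt_atTop (0 : ℝ)] with T hT
    have hT' : (T : ℂ) ≠ 0 := by exact_mod_cast hT.ne'
    have e1 : ((T : ℂ) ^ 2 - (2 * (T : ℂ)) ^ 2) = (T : ℂ) ^ 2 * (-3) := by ring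
    have e2 : h η (T : ℂ) (2 * T) = (T : ℂ) ^ 2 * h η 1 2 := by unfold h; ring
    simp only [AA]
    rw [e1, e2, mul_div_mul_left _ _ (pow_ne_zero 2 hT')]
  rcases x with x | x <;> rcases y with y | y
  · cases x <;> cases y
    · simp only [K2, Kinf, AA_self]; exact tendsto_const_nhds
    · exact e12
    · simp only [K2, Kinf, pt2]
      refine (e12.neg.congr fun T => ?_).trans (by rw [neg_div, neg_neg])
      rw [AA_anti (some (T : ℂ)), neg_neg]
    · simp only [K2, Kinf, AA_self]; exact tendsto_const_nhds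
  · cases x
    · simpa [K2, Kinf, pt2] using g 1 one_ne_zero y
    · simpa [K2, Kinf, pt2] using g 2 two_ne_zero y
  · cases y
    · simpa [K2, Kinf, pt2] using g' 1 one_ne_zero x
    · simpa [K2, Kinf, pt2] using g' 2 two_ne_zero x
  · simp only [K2, Kinf, pt2]
    exact tendsto_const_nhds

theorem Kinf_anti (x y : Bool ⊕ Option ℂ) : Kinf η x y = - Kinf η y x := by
  rcases x with x | x <;> rcases y with y | y
  · cases x <;> cases y <;> simp [Kinf, neg_div]
  · cases x <;> simp [Kinf]
  · cases y <;> simp [Kinf]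
  · simp only [Kinf]
    exact AA_anti _ _

theorem tends_dt (S : List (Option ℂ)) :
    Tendsto (fun T : ℝ => dt (AA η) (some (T : ℂ) :: some (2 * (T : ℂ)) :: S)) atTop
      (𝓝 ((3 / h η 1 2) ^ 2 * dt (AA η) S)) := by
  set S' : List (Bool ⊕ Option ℂ) := Sum.inl false :: Sum.inl true :: S.map Sum.inr with hS'
  have e1 : ∀ T : ℝ, dt (AA η) (some (T : ℂ) :: some (2 * (T : ℂ)) :: S) = dt (K2 η T) S' := by
    intro T
    have : (some (T : ℂ) :: some (2 * (T : ℂ)) :: S) = S'.map (pt2 T) := by
      simp [hS', pt2, Function.comp_def]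
    rw [this, mt_map]
    rfl
  have e2 : Tendsto (fun T : ℝ => dt (K2 η T) S') atTop (𝓝 (dt (Kinf η) S')) := by
    unfold dt
    have hc : Continuous fun M : Matrix (Fin S'.length) (Fin S'.length) ℂ => M.det :=
      continuous_id.matrix_det
    refine (hc.tendsto _).comp ?_
    exact tendsto_pi_nhds.2 fun i => tendsto_pi_nhds.2 fun j => tends_K2 _ _
  have e3 : dt (Kinf η) S' = (3 / h η 1 2) ^ 2 * dt (AA η) S := by
    rw [hS', dt_cons _ _ _ rfl (fun s _ => Kinf_anti _ _)]
    have hl : 0 < (Sum.inl true :: S.map Sum.inr : List (Bool ⊕ Option ℂ)).length := by simp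
    rw [bd_add (Kinf η (Sum.inl false)) (fun x => if x = Sum.inl true then -3 / h η 1 2 else 0)
      (Kinf η) (S := Sum.inl true :: S.map Sum.inr) 1 1 ⟨0, hl⟩ (fun s _ t _ => Kinf_anti s t) rfl ?_]
    · rw [bd_single, mt_map]
      · simp only [if_true]
        have : (fun a b => Kinf η (Sum.inr a) (Sum.inr b)) = AA η := by
          funext a b
          rfl
        rw [this]
        ring
      · intro s hs
        obtain ⟨a, _, rfl⟩ := List.mem_map.1 hs
        simp
    · intro s hs
      rcases List.mem_cons.1 hs with rfl | hs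
      · simp [Kinf]
      · obtain ⟨a, _, rfl⟩ := List.mem_map.1 hs
        simp [Kinf]
  simp only [e1]
  rw [← e3]
  exact e2

theorem tends_fac {k : ℂ} (hk : k ≠ 0) (z : ℂ) :
    Tendsto (fun T : ℝ => h η (k * T) z / (k * T - z) / (T : ℂ)) atTop (𝓝 k) := by
  have h1 := tends_inv z
  have h2 : Tendsto (fun T : ℝ =>
      (k ^ 2 + (η - η ^ 3) * k * (z / (T : ℂ)) + (z / (T : ℂ)) ^ 2) / (k - z / (T : ℂ))) atTop
      (𝓝 ((k ^ 2 + (η - η ^ 3) * k * 0 + 0 ^ 2) / (k - 0))) := by
    refine Tendsto.div ((tendsto_const_nhds.add (tendsto_const_nhds.mul h1)).add (h1.pow 2))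
      (tendsto_const_nhds.sub h1) ?_
    simpa using hk
  have e : ((k ^ 2 + (η - η ^ 3) * k * 0 + 0 ^ 2) / (k - 0) : ℂ) = k := by
    field_simp
    ring
  rw [e] at h2
  refine h2.congr' ?_
  filter_upwards [eventually_gt_atTop (0 : ℝ)] with T hT
  have hT' : (T : ℂ) ≠ 0 := by exact_mod_cast hT.ne'
  have e2 : h η (k * (T : ℂ)) z = (T : ℂ) ^ 2 * (k ^ 2 + (η - η ^ 3) * k * (z / (T : ℂ)) +
      (z / (T : ℂ)) ^ 2) := by
    unfold h
    field_simp
  have e3 : k * (T : ℂ) - z = (T : ℂ) * (k - z / (T : ℂ)) := by field_simp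
  rw [e2, e3, div_div, show (T : ℂ) * (k - z / (T : ℂ)) * (T : ℂ) = (T : ℂ) ^ 2 * (k - z / (T : ℂ)) by ring,
    mul_div_mul_left _ _ (pow_ne_zero 2 hT')]

theorem tends_prod {k : ℂ} (hk : k ≠ 0) (Z : List ℂ) :
    Tendsto (fun T : ℝ => (Z.map (fun z => h η (k * T) z / (k * T - z))).prod / (T : ℂ) ^ Z.length)
      atTop (𝓝 (k ^ Z.length)) := by
  induction Z with
  | nil => simp
  | cons a Z ih =>
    have h1 := (tends_fac (η := η) hk a).mul ih
    rw [List.length_cons, pow_succ']
    refine h1.congr fun T => ?_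
    rw [List.map_cons, List.prod_cons, pow_succ', div_mul_div_comm]

/-- the joint limit of the determinant -/
theorem tends_DD (hη : η ^ 4 = -1) (Z : List ℂ) :
    Tendsto (fun T : ℝ => DD η ((T : ℂ) :: 2 * (T : ℂ) :: Z) / (T : ℂ) ^ (4 * Z.length + 2)) atTop
      (𝓝 (2 ^ (2 * Z.length) * 9 * DD η Z)) := by
  have hh : h η 1 2 ≠ 0 := by
    have h8 := norm_eta hη
    rw [h_factor hη]
    refine mul_ne_zero (sub_ne_zero.2 fun e => ?_) (sub_ne_zero.2 fun e => ?_)
    · have := congrArg norm e
      simp [h8] at this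
    · have := congrArg norm e
      simp [h8] at this
  have h1 := tends_prod (η := η) one_ne_zero Z
  have h2 := tends_prod (η := η) two_ne_zero Z
  have h3 := tends_dt (η := η) (pts Z (EL Z))
  have h4 := ((((h1.mul h2).mul_const (- h η 1 2 * Pr η Z)).pow 2).mul h3)
  have e : ((1 ^ Z.length * 2 ^ Z.length * (- h η 1 2 * Pr η Z)) ^ 2 *
      ((3 / h η 1 2) ^ 2 * dt (AA η) (pts Z (EL Z))) : ℂ) = 2 ^ (2 * Z.length) * 9 * DD η Z := by
    rw [DD]
    field_simp
    ring
  rw [e] at h4
  refine h4.congr' ?_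
  filter_upwards [eventually_gt_atTop (0 : ℝ)] with T hT
  have hT' : (T : ℂ) ≠ 0 := by exact_mod_cast hT.ne'
  have e1 : pts ((T : ℂ) :: 2 * (T : ℂ) :: Z) (EL Z) = some (T : ℂ) :: some (2 * (T : ℂ)) :: pts Z (EL Z) :=
    rfl
  have e2 : h η (T : ℂ) (2 * T) / ((T : ℂ) - 2 * T) = (T : ℂ) * (- h η 1 2) := by
    have : h η (T : ℂ) (2 * T) = (T : ℂ) ^ 2 * h η 1 2 := by unfold h; ring
    rw [this, show (T : ℂ) - 2 * T = - T by ring, div_neg, pow_two, mul_assoc,
      mul_div_cancel_left₀ _ hT']
    ring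
  have e3 : Pr η ((T : ℂ) :: 2 * (T : ℂ) :: Z) = ((T : ℂ) * (- h η 1 2)) *
      ((Z.map (fun z => h η (1 * (T : ℂ)) z / (1 * (T : ℂ) - z))).prod) *
      ((Z.map (fun z => h η (2 * (T : ℂ)) z / (2 * (T : ℂ) - z))).prod * Pr η Z) := by
    simp only [Pr, List.map_cons, List.prod_cons, one_mul]
    rw [e2]
  rw [DD, EL_two, e1, e3]
  field_simp
  ring

/-! ### Two groups -/

theorem special2 (hη : η ^ 4 = -1) {W : List ℂ → List ℂ → ℂ} (hW : Data η 0 W) {X Y : List ℂ}
    (hg : Gen η (X ++ Y)) (ih : ∀ X' Y' : List ℂ, X'.length + Y'.length < X.length + Y.length + 1 →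
      Gen η (X' ++ Y') → W X' Y' = W (X' ++ Y') [])
    {x : ℂ} (hx : x ∈ X) {k : ℕ} (hk : k = 3 ∨ k = 5 ∨ k = 2 ∨ k = 6) :
    W (η ^ k * x :: X) Y = W (η ^ k * x :: (X ++ Y)) [] ∧ Good η (η ^ k * x) (X ++ Y) := by
  obtain ⟨X', hX'⟩ : ∃ X', X.Perm (x :: X') := ⟨X.erase x, List.perm_cons_erase hx⟩
  have hp : (X ++ Y).Perm (x :: (X' ++ Y)) := hX'.append_right Y
  have hg1 : Gen η (x :: (X' ++ Y)) := hg.perm hη hp
  have hlen : X.length = X'.length + 1 := by rw [hX'.length_eq]; rfl
  have hnil : Gen η [] := ⟨by simp, List.Pairwise.nil⟩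
  have gX : ∀ p : ℂ, Gen η (p :: (X' ++ Y)) → Gen η (p :: X') := fun p h1 =>
    ⟨fun y hy => h1.1 y (by
      rcases List.mem_cons.1 hy with rfl | hy
      · exact List.mem_cons_self
      · exact List.mem_cons_of_mem _ (List.mem_append_left _ hy)),
      h1.2.sublist ((List.sublist_append_left X' Y).cons₂ p)⟩
  have gY : ∀ p : ℂ, Gen η (p :: (X' ++ Y)) → Gen η Y := fun p h1 =>
    ⟨fun y hy => h1.1 y (List.mem_cons_of_mem _ (List.mem_append_right _ hy)),
      h1.2.sublist ((List.sublist_append_right X' Y).trans (List.sublist_cons_self _ _))⟩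
  have e1 : W (η ^ k * x :: X) Y = W (η ^ k * x :: x :: X') Y := hW.perm Y (hX'.cons _)
  have e2 : W (η ^ k * x :: (X ++ Y)) [] = W (η ^ k * x :: x :: (X' ++ Y)) [] := hW.perm [] (hp.cons _)
  have h8 := eta8 hη
  rcases hk with rfl | rfl | rfl | rfl
  · refine ⟨?_, (good_scale hη hg1 (by norm_num) (by norm_num) (by norm_num)).perm hp.symm⟩
    rw [e1, e2, hW.cross x X' Y (gX x hg1) (gY x hg1), hW.cross x (X' ++ Y) [] hg1 hnil,
      ih X' Y (by omega) hg1.tail, List.map_append, List.prod_append]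
    simp
  · refine ⟨?_, (good_scale hη hg1 (by norm_num) (by norm_num) (by norm_num)).perm hp.symm⟩
    have hx3 : η ^ 3 * (η ^ 5 * x) = x := by
      rw [← mul_assoc, ← pow_add]; norm_num; rw [h8, one_mul]
    have hg5 := hg1.scale hη 5
    rw [e1, e2, hW.perm Y (List.Perm.swap _ _ _), hW.perm [] (List.Perm.swap _ _ _)]
    have c1 := hW.cross (η ^ 5 * x) X' Y (gX _ hg5) (gY _ hg5)
    have c2 := hW.cross (η ^ 5 * x) (X' ++ Y) [] hg5 hnil
    rw [hx3] at c1 c2
    rw [c1, c2, ih X' Y (by omega) hg1.tail, List.map_append, List.prod_append]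
    simp
  · refine ⟨?_, (good_scale hη hg1 (by norm_num) (by norm_num) (by norm_num)).perm hp.symm⟩
    have hgs := hg1.scale hη 1
    rw [pow_one] at hgs
    rw [e1, e2, hW.fuse x X' Y (gX x hg1) (gY x hg1), hW.fuse x (X' ++ Y) [] hg1 hnil,
      ih (η * x :: X') Y (by simp; omega) hgs, List.map_append, List.prod_append]
    simp
  · refine ⟨?_, (good_scale hη hg1 (by norm_num) (by norm_num) (by norm_num)).perm hp.symm⟩
    have hx3 : η ^ 2 * (η ^ 6 * x) = x := by
      rw [← mul_assoc, ← pow_add]; norm_num; rw [h8, one_mul]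
    have hg5 := hg1.scale hη 6
    rw [e1, e2, hW.perm Y (List.Perm.swap _ _ _), hW.perm [] (List.Perm.swap _ _ _)]
    have c1 := hW.fuse (η ^ 6 * x) X' Y (gX _ hg5) (gY _ hg5)
    have c2 := hW.fuse (η ^ 6 * x) (X' ++ Y) [] hg5 hnil
    rw [hx3] at c1 c2
    have hg7 := hg5.scale hη 1
    rw [pow_one] at hg7
    rw [c1, c2, ih (η * (η ^ 6 * x) :: X') Y (by simp; omega) hg7, List.map_append, List.prod_append]
    simp

/-- one step: the difference is a multiple of the node polynomial -/
theorem diff2 (hη : η ^ 4 = -1) {W : List ℂ → List ℂ → ℂ} (hW : Data η 0 W) {X Y : List ℂ}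
    (hg : Gen η (X ++ Y)) (ih : ∀ X' Y' : List ℂ, X'.length + Y'.length < X.length + Y.length + 1 →
      Gen η (X' ++ Y') → W X' Y' = W (X' ++ Y') []) (hle : Y.length ≤ X.length + 1) :
    ∃ c : ℂ, (Y.length ≤ X.length → c = 0) ∧
      ∀ t, Good η t (X ++ Y) → W (t :: X) Y - W (t :: (X ++ Y)) [] = c * (node η X).eval t := by
  have hnil : Gen η [] := ⟨by simp, List.Pairwise.nil⟩
  have hX : Gen η X := ⟨fun y hy => hg.1 y (List.mem_append_left _ hy),
    hg.2.sublist (List.sublist_append_left X Y)⟩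
  have hY : Gen η Y := ⟨fun y hy => hg.1 y (List.mem_append_right _ hy),
    hg.2.sublist (List.sublist_append_right X Y)⟩
  obtain ⟨P₁, d₁, t₁, b₁, v₁⟩ := hW.poly X Y hX hY
  obtain ⟨P₂, d₂, t₂, b₂, v₂⟩ := hW.poly (X ++ Y) [] hg hnil
  rw [List.length_append, List.length_nil, add_zero] at d₂ t₂
  rw [List.map_append, List.prod_append, List.map_nil, List.prod_nil, mul_one] at b₂
  have hWe := ih X Y (by omega) hg
  set d := P₁ - P₂ with hd
  have hdeg : d.natDegree ≤ 2 * (X.length + Y.length) :=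
    (natDegree_sub_le _ _).trans (max_le d₁ d₂)
  have htop : d.coeff (2 * (X.length + Y.length)) = 0 := by
    rw [hd, coeff_sub, t₁, t₂, hWe, sub_self]
  have hbot : d.coeff 0 = 0 := by rw [hd, coeff_sub, b₁, b₂, hWe, sub_self]
  have sub : ∀ t, Good η t (X ++ Y) → Good η t X := fun t h x hx => h x (List.mem_append_left _ hx)
  have hroots : ∀ t ∈ rts η X, d.eval t = 0 := by
    intro t ht
    rcases mem_rts ht with rfl | ⟨x, hx, h⟩
    · rw [← coeff_zero_eq_eval_zero]; exact hbot
    · obtain ⟨k, hk, rfl⟩ : ∃ k, (k = 3 ∨ k = 5 ∨ k = 2 ∨ k = 6) ∧ t = η ^ k * x := by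
        rcases h with h | h | h | h
        · exact ⟨3, by simp, h⟩
        · exact ⟨5, by simp, h⟩
        · exact ⟨2, by simp, h⟩
        · exact ⟨6, by simp, h⟩
      obtain ⟨hv, hgd⟩ := special2 hη hW hg ih hx hk
      rw [hd, eval_sub, ← v₁ _ (sub _ hgd), ← v₂ _ hgd, hv, sub_self]
  obtain ⟨R, hR⟩ := node_dvd hη hX hroots
  have hval : ∀ t, Good η t (X ++ Y) → W (t :: X) Y - W (t :: (X ++ Y)) [] = d.eval t := by
    intro t ht
    rw [hd, eval_sub, v₁ t (sub t ht), v₂ t ht]
  rcases eq_or_ne d 0 with h0 | h0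
  · exact ⟨0, fun _ => rfl, fun t ht => by rw [hval t ht, h0]; simp⟩
  · have hR0 : R ≠ 0 := by rintro rfl; rw [mul_zero] at hR; exact h0 hR
    have hlt : d.natDegree < 2 * (X.length + Y.length) := by
      refine lt_of_le_of_ne hdeg fun h => ?_
      apply h0
      rw [← leadingCoeff_eq_zero, leadingCoeff, h, htop]
    have hsum : d.natDegree = (4 * X.length + 1) + R.natDegree := by
      rw [hR, (node_monic X).natDegree_mul' hR0, node_natDegree]
    have hR1 : R.natDegree = 0 := by omega
    have hc : R = C (R.coeff 0) := eq_C_of_natDegree_eq_zero hR1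
    refine ⟨R.coeff 0, fun h => ?_, fun t ht => ?_⟩
    · exfalso; omega
    · rw [hval t ht, hR, eval_mul]
      rw [hc]; simp [mul_comm]

theorem eventually_gen2 (hη : η ^ 4 = -1) {Z : List ℂ} (hZ : Gen η Z) :
    ∀ᶠ T : ℝ in atTop, Gen η ((T : ℂ) :: 2 * (T : ℂ) :: Z) := by
  have h2 : Tendsto (fun T : ℝ => 2 * T) atTop atTop :=
    tendsto_id.const_mul_atTop (by norm_num)
  filter_upwards [eventually_gen hη hZ, h2.eventually (eventually_gen hη hZ),
    eventually_gt_atTop (0 : ℝ)] with T g1 g2 h0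
  have h0' : (T : ℂ) ≠ 0 := by exact_mod_cast h0.ne'
  have e : ((2 * T : ℝ) : ℂ) = 2 * (T : ℂ) := by push_cast; ring
  rw [e] at g2
  refine ⟨?_, List.pairwise_cons.2 ⟨?_, g2.2⟩⟩
  · intro x hx
    rcases List.mem_cons.1 hx with rfl | hx
    · exact h0'
    · exact g2.1 x hx
  · intro x hx
    rcases List.mem_cons.1 hx with rfl | hx
    · intro k hk
      have := congrArg norm hk
      rw [norm_mul, norm_pow, norm_eta hη, one_pow, one_mul, norm_mul] at this
      have hn : ‖(T : ℂ)‖ ≠ 0 := norm_ne_zero_iff.2 h0'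
      simp only [Complex.norm_ofNat] at this
      apply hn
      linarith
    · exact g1.sep hx

/-- **two groups reduce to one** -/
theorem two_group (hη : η ^ 4 = -1) {W : List ℂ → List ℂ → ℂ} (hW : Data η 0 W) :
    ∀ (n : ℕ) (X Y : List ℂ), X.length + Y.length = n → Gen η (X ++ Y) → W X Y = W (X ++ Y) [] := by
  intro n
  induction n using Nat.strong_induction_on with
  | _ n ih =>
  have key : ∀ X Y : List ℂ, X.length + Y.length = n → Y.length < X.length → Gen η (X ++ Y) →
      W X Y = W (X ++ Y) [] := by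
    intro X Y hn hlt hg
    rcases X with _ | ⟨p, X⟩
    · simp at hlt
    · simp only [List.length_cons] at hn hlt
      have hg' : Gen η (X ++ Y) := Gen.tail (p := p) hg
      obtain ⟨c, hc, hv⟩ := diff2 hη hW hg'
        (fun X' Y' h => ih _ (by omega) X' Y' rfl) (by omega)
      have := hv p (Gen.good hη hg)
      rw [hc (by omega), zero_mul, sub_eq_zero] at this
      exact this
  intro X Y hn hg
  rcases lt_trichotomy Y.length X.length with hlt | heq | hgt
  · exact key X Y hn hlt hg
  · rcases X with _ | ⟨p, X⟩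
    · rw [List.length_nil, List.length_eq_zero_iff] at heq
      rw [heq]; rfl
    · rcases Y with _ | ⟨q, Y⟩
      · simp at heq
      · simp only [List.length_cons] at hn heq
        have hlen : Y.length = X.length := by omega
        have pq : ∀ p' q' : ℂ, ((p' :: X) ++ (q' :: Y)).Perm (q' :: p' :: (X ++ Y)) := fun p' q' => by
          have : (p' :: X ++ q' :: Y).Perm (q' :: (p' :: X ++ Y)) := List.perm_middle
          exact this
        have pq1 : ∀ p' q' : ℂ, ((p' :: X) ++ (q' :: Y)).Perm (p' :: (X ++ q' :: Y)) := fun p' q' =>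
          List.Perm.refl _
        have pq2 : ∀ p' q' : ℂ, ((p' :: X) ++ (q' :: Y)).Perm (q' :: (Y ++ p' :: X)) := fun p' q' => by
          refine (pq p' q').trans (List.Perm.cons _ ?_)
          refine (List.Perm.cons _ List.perm_append_comm).trans ?_
          exact List.perm_middle.symm
        have hgXY : Gen η (X ++ Y) := ((hg.perm hη (pq p q)).tail).tail
        -- polynomial in the first line
        obtain ⟨c, -, hc⟩ := diff2 hη hW (X := X) (Y := q :: Y) (Gen.tail (p := p) hg)
          (fun X' Y' h => ih _ (by simp at h ⊢; omega) X' Y' rfl) (by simp; omega)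
        have B : ∀ p', Gen η (p' :: (X ++ Y)) → ∃ c : ℂ, ∀ t, Good η t (Y ++ p' :: X) →
            W (p' :: X) (t :: Y) - W ((p' :: X) ++ (t :: Y)) [] = c * (node η Y).eval t := by
          intro p' hp'
          have hg' : Gen η (Y ++ p' :: X) := hp'.perm hη (by
            refine (List.Perm.cons _ List.perm_append_comm).trans ?_
            exact List.perm_middle.symm)
          obtain ⟨c, _, hv⟩ := diff2 hη hW hg'
            (fun X' Y' h => ih _ (by simp at h ⊢; omega) X' Y' rfl) (by simp; omega)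
          refine ⟨c, fun t ht => ?_⟩
          rw [hW.roles, hW.perm [] (pq2 p' t)]
          exact hv t ht
        have hnq : (node η Y).eval q ≠ 0 := node_eval_ne hη (hg.perm hη (pq2 p q) |>.perm hη
          (List.Perm.refl _) |> fun h1 : Gen η (q :: (Y ++ p :: X)) =>
            (⟨fun y hy => h1.1 y (by
              rcases List.mem_cons.1 hy with rfl | hy
              · exact List.mem_cons_self
              · exact List.mem_cons_of_mem _ (List.mem_append_left _ hy)),
              h1.2.sublist ((List.sublist_append_left Y (p :: X)).cons₂ q)⟩ : Gen η (q :: Y)))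
        have hnp : (node η X).eval p ≠ 0 := node_eval_ne hη
          (⟨fun y hy => hg.1 y (by
              rcases List.mem_cons.1 hy with rfl | hy
              · exact List.mem_append_left _ List.mem_cons_self
              · exact List.mem_append_left _ (List.mem_cons_of_mem _ hy)),
              hg.2.sublist (List.sublist_append_left (p :: X) (q :: Y))⟩ : Gen η (p :: X))
        have hj1 := hW.joint 1 2 X Y one_ne_zero two_ne_zero
          (⟨fun y hy => hgXY.1 y (List.mem_append_left _ hy),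
            hgXY.2.sublist (List.sublist_append_left X Y)⟩)
          (⟨fun y hy => hgXY.1 y (List.mem_append_right _ hy),
            hgXY.2.sublist (List.sublist_append_right X Y)⟩)
        have hj2 := tends_DD hη (X ++ Y)
        have hWe : W X Y = DD η (X ++ Y) := by
          rw [ih _ (by omega) X Y rfl hgXY, one_group hη hW _ _ rfl hgXY]
        have hj : Tendsto (fun T : ℝ => (W ((T : ℂ) :: X) (2 * (T : ℂ) :: Y) -
            W (((T : ℂ) :: X) ++ (2 * (T : ℂ) :: Y)) []) / (T : ℂ) ^ (4 * (X.length + Y.length) + 2))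
            atTop (𝓝 0) := by
          have h1 := hj1.sub hj2
          rw [hWe, List.length_append] at h1
          have e0 : (((1 : ℂ) * 2) ^ (2 * (X.length + Y.length)) * (((1 : ℂ) + 2) ^ 2 +
              (2 - η + η ^ 3) * 0 * (1 * 2)) * DD η (X ++ Y) -
              2 ^ (2 * (X.length + Y.length)) * 9 * DD η (X ++ Y)) = 0 := by ring
          rw [e0] at h1
          refine h1.congr' ?_
          filter_upwards [eventually_gen2 hη hgXY] with T hT
          have e1 : W (((T : ℂ) :: X) ++ (2 * (T : ℂ) :: Y)) [] =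
              DD η ((T : ℂ) :: 2 * (T : ℂ) :: (X ++ Y)) := by
            rw [hW.perm [] (((pq (T : ℂ) (2 * T))).trans (List.Perm.swap _ _ _))]
            exact one_group hη hW _ _ rfl hT
          rw [e1, one_mul, sub_div]
        have hl : Tendsto (fun T : ℝ => (c / (node η Y).eval q * 2 ^ (rts η Y).length) *
            (((node η X).eval (T : ℂ) / (T : ℂ) ^ (rts η X).length) *
            ((node η Y).eval ((2 * T : ℝ) : ℂ) / ((2 * T : ℝ) : ℂ) ^ (rts η Y).length))) atTop
            (𝓝 ((c / (node η Y).eval q * 2 ^ (rts η Y).length) * (1 * 1))) := by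
          have h2 : Tendsto (fun T : ℝ => 2 * T) atTop atTop :=
            tendsto_id.const_mul_atTop (by norm_num)
          exact tendsto_const_nhds.mul ((tendsto_node _).mul ((tendsto_node _).comp h2))
        have hgq : ∀ᶠ T : ℝ in atTop, Gen η ((T : ℂ) :: (X ++ q :: Y)) :=
          eventually_gen hη (Gen.tail (p := p) hg)
        have hκ0 : c / (node η Y).eval q * 2 ^ (rts η Y).length = 0 := by
          have hj' : Tendsto (fun T : ℝ => (c / (node η Y).eval q * 2 ^ (rts η Y).length) *
            (((node η X).eval (T : ℂ) / (T : ℂ) ^ (rts η X).length) *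
            ((node η Y).eval ((2 * T : ℝ) : ℂ) / ((2 * T : ℝ) : ℂ) ^ (rts η Y).length))) atTop
              (𝓝 0) := by
            refine hj.congr' ?_
            filter_upwards [eventually_gen2 hη hgXY, hgq, eventually_gt_atTop (0 : ℝ)] with T g1 g2 h0
            have hT' : (T : ℂ) ≠ 0 := by exact_mod_cast h0.ne'
            have gT : Gen η ((T : ℂ) :: (X ++ Y)) :=
              (g1.perm hη (List.Perm.swap _ _ _)).tail
            obtain ⟨c', hc'⟩ := B T gT
            have a1 := hc (T : ℂ) (g2.good hη)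
            have gq : Gen η (q :: (Y ++ (T : ℂ) :: X)) := g2.perm hη (pq2 T q)
            have a2 := hc' q (gq.good hη)
            have g2T : Gen η (2 * (T : ℂ) :: (Y ++ (T : ℂ) :: X)) :=
              g1.perm hη ((List.Perm.swap _ _ _).trans (List.Perm.cons _ (by
                refine (List.Perm.cons _ List.perm_append_comm).trans ?_
                exact List.perm_middle.symm)))
            have a3 := hc' (2 * (T : ℂ)) (g2T.good hη)
            have a1' : W ((T : ℂ) :: X) (q :: Y) - W (((T : ℂ) :: X) ++ (q :: Y)) [] =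
              c * (node η X).eval (T : ℂ) := a1
            rw [a2] at a1'
            have hcc : c' = c / (node η Y).eval q * (node η X).eval (T : ℂ) := by
              field_simp
              linear_combination a1'
            rw [a3, hcc, length_rts, length_rts]
            have e : ((2 * T : ℝ) : ℂ) = 2 * (T : ℂ) := by push_cast; ring
            rw [e, show 4 * (X.length + Y.length) + 2 = (4 * X.length + 1) + (4 * Y.length + 1) by ring,
              pow_add, mul_pow]
            field_simp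
          have := tendsto_nhds_unique hl hj'
          simpa using this
        have hc0 : c = 0 := by
          have h2 : (2 : ℂ) ^ (rts η Y).length ≠ 0 := pow_ne_zero _ two_ne_zero
          have := (mul_eq_zero.1 hκ0).resolve_right h2
          exact (div_eq_zero_iff.1 this).resolve_right hnq
        have := hc p (Gen.good hη hg)
        rw [hc0, zero_mul, sub_eq_zero] at this
        exact this
  · have hp : (X ++ Y).Perm (Y ++ X) := List.perm_append_comm
    rw [hW.roles, hW.perm [] hp]
    exact key Y X (by omega) hgt (hg.perm hη hp)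

/-- **the determinant formula at loop weight zero** -/
theorem data_det (hη : η ^ 4 = -1) {W : List ℂ → List ℂ → ℂ} (hW : Data η 0 W) {X Y : List ℂ}
    (hg : Gen η (X ++ Y)) : W X Y = DD η (X ++ Y) := by
  rw [two_group hη hW _ X Y rfl hg, one_group hη hW _ _ rfl hg]

end NUGas.QD
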